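import Mathlib
import Pool.Agent.Helper802.OD.Base
import Pool.Agent.Helper802.OD.Easy
import Pool.Agent.Helper802.OD.Anal

set_option autoImplicit false
open MeasureTheory Set Filter Topology
open scoped ContDiff ENNReal

noncomputable section

open Pool.Agent.Helper802.OD

namespace Pool.Agent.Helper802.OD.N_PhiT_mp


-- TARGET
theorem PhiT_mp (K : TD) (a t : ℝ) : MeasurePreserving (PhiT K a t) volume volume := by
  have h1 : MeasurePreserving (fun p : UnitAddCircle × UnitAddCircle => p + pi2 (a, t))
      volume volume := by
    haveI : (volume : Measure (UnitAddCircle × UnitAddCircle)).IsAddRightInvariant := by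
      rw [Measure.volume_eq_prod]
      infer_instance
    exact measurePreserving_add_right volume _
  exact K.mpF.comp (h1.comp K.mpG)

end Pool.Agent.Helper802.OD.N_PhiT_mp
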