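import Mathlib
import Pool.Agent.Helper802.OD.Base
import Pool.Agent.Helper802.OD.Easy
import Pool.Agent.Helper802.OD.Anal

set_option autoImplicit false
open MeasureTheory Set Filter Topology
open scoped ContDiff ENNReal

noncomputable section

open Pool.Agent.Helper802.OD

namespace Pool.Agent.Helper802.OD.N_tendsto_measure_ne

-- TARGET
/-- Composition with a converging sequence of measure preserving maps converges in measure. -/
theorem tendsto_measure_ne {α : Type} [MetricSpace α] [CompactSpace α] [MeasurableSpace α]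
    [BorelSpace α] (μ : Measure α) [IsProbabilityMeasure μ] {β : Type} [Finite β]
    [MeasurableSpace β] [DiscreteMeasurableSpace β] (Φ : α → β) (hΦ : Measurable Φ)
    (T : α → α) (Tn : ℕ → α → α) (hT : MeasurePreserving T μ μ)
    (hTn : ∀ n, MeasurePreserving (Tn n) μ μ)
    (hlim : ∀ x, Tendsto (fun n => Tn n x) atTop (𝓝 (T x))) :
    Tendsto (fun n => μ {x | Φ (Tn n x) ≠ Φ (T x)}) atTop (𝓝 0) := by
  obtain ⟨m, ⟨e⟩⟩ := Finite.exists_equiv_fin β
  let c : β → ℝ := fun b => ((e b : ℕ) : ℝ)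
  let g : α → ℝ := fun x => c (Φ x)
  have hg : Measurable g := (Measurable.of_discrete (f := c)).comp hΦ
  have hc1 : ∀ b b' : β, b ≠ b' → (1 : ℝ) ≤ ‖c b - c b'‖ := by
    intro b b' hbb
    have h1 : ((e b : ℕ) : ℤ) - ((e b' : ℕ) : ℤ) ≠ 0 := by
      intro h
      apply hbb
      apply e.injective
      apply Fin.ext
      omega
    have h2 : (1 : ℤ) ≤ |((e b : ℕ) : ℤ) - ((e b' : ℕ) : ℤ)| := Int.one_le_abs h1
    have h3 : (1 : ℝ) ≤ |((((e b : ℕ) : ℤ) - ((e b' : ℕ) : ℤ) : ℤ) : ℝ)| := by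
      rw [← Int.cast_abs]
      exact_mod_cast h2
    rw [Real.norm_eq_abs]
    push_cast at h3
    exact h3
  have hcb : ∀ b : β, ‖c b‖ ≤ m := by
    intro b
    rw [Real.norm_eq_abs, abs_of_nonneg (Nat.cast_nonneg _)]
    exact Nat.cast_le.mpr (e b).2.le
  have hgi : Integrable g μ :=
    Integrable.of_bound hg.aestronglyMeasurable (m : ℝ) (Eventually.of_forall fun x => hcb (Φ x))
  rw [ENNReal.tendsto_atTop_zero]
  intro ε hε
  have hε3 : ε / 3 ≠ 0 := by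
    rw [Ne, ENNReal.div_eq_zero_iff, not_or]
    exact ⟨hε.ne', by simp⟩
  obtain ⟨h, hh, hhi⟩ := hgi.exists_boundedContinuous_lintegral_sub_le hε3
  have hhm : Measurable (h : α → ℝ) := h.continuous.measurable
  -- the middle term
  have hmid : Tendsto (fun n => ∫⁻ x, ‖h (Tn n x) - h (T x)‖ₑ ∂μ) atTop (𝓝 0) := by
    have h1 := tendsto_lintegral_of_dominated_convergence (μ := μ)
      (F := fun n x => ‖h (Tn n x) - h (T x)‖ₑ) (f := fun _ => 0)
      (fun _ => ENNReal.ofReal (‖h‖ + ‖h‖))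
      (fun n => ((hhm.comp (hTn n).measurable).sub (hhm.comp hT.measurable)).enorm)
      (fun n => Eventually.of_forall fun x => by
        show ‖h (Tn n x) - h (T x)‖ₑ ≤ ENNReal.ofReal (‖h‖ + ‖h‖)
        rw [← ofReal_norm]
        apply ENNReal.ofReal_le_ofReal
        exact (norm_sub_le _ _).trans (add_le_add (h.norm_coe_le_norm _) (h.norm_coe_le_norm _)))
      (by
        rw [lintegral_const, measure_univ, mul_one]
        exact ENNReal.ofReal_ne_top)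
      (Eventually.of_forall fun x => by
        have h2 : Tendsto (fun n => h (Tn n x) - h (T x)) atTop (𝓝 (h (T x) - h (T x))) :=
          ((h.continuous.tendsto _).comp (hlim x)).sub tendsto_const_nhds
        have h3 := h2.enorm
        rw [sub_self, enorm_zero] at h3
        exact h3)
    rwa [lintegral_zero] at h1
  rw [ENNReal.tendsto_atTop_zero] at hmid
  obtain ⟨N, hN⟩ := hmid (ε / 3) (pos_iff_ne_zero.mpr hε3)
  refine ⟨N, fun n hn => ?_⟩
  have hkey : μ {x | Φ (Tn n x) ≠ Φ (T x)} ≤ ∫⁻ x, ‖g (Tn n x) - g (T x)‖ₑ ∂μ := by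
    have hsub : {x | Φ (Tn n x) ≠ Φ (T x)} ⊆ {x | 1 ≤ ‖g (Tn n x) - g (T x)‖ₑ} := by
      intro x hx
      have h1 := hc1 _ _ hx
      show 1 ≤ ‖g (Tn n x) - g (T x)‖ₑ
      rw [← ofReal_norm, ← ENNReal.ofReal_one]
      exact ENNReal.ofReal_le_ofReal h1
    refine (measure_mono hsub).trans ?_
    have h2 := mul_meas_ge_le_lintegral (μ := μ)
      (((hg.comp (hTn n).measurable).sub (hg.comp hT.measurable)).enorm) 1
    rw [one_mul] at h2
    exact h2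
  have htri : ∫⁻ x, ‖g (Tn n x) - g (T x)‖ₑ ∂μ ≤
      ∫⁻ x, (‖g (Tn n x) - h (Tn n x)‖ₑ + ‖h (Tn n x) - h (T x)‖ₑ + ‖g (T x) - h (T x)‖ₑ) ∂μ := by
    apply lintegral_mono
    intro x
    show ‖g (Tn n x) - g (T x)‖ₑ ≤ _
    have h1 : g (Tn n x) - g (T x) =
        (g (Tn n x) - h (Tn n x)) + (h (Tn n x) - h (T x)) - (g (T x) - h (T x)) := by ring
    rw [h1]
    refine (enorm_sub_le).trans ?_
    exact add_le_add (enorm_add_le _ _) le_rfl
  have hm1 : Measurable fun x => ‖g x - h x‖ₑ := (hg.sub hhm).enorm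
  have e1 : ∫⁻ x, ‖g (Tn n x) - h (Tn n x)‖ₑ ∂μ = ∫⁻ x, ‖g x - h x‖ₑ ∂μ :=
    (hTn n).lintegral_comp hm1
  have e2 : ∫⁻ x, ‖g (T x) - h (T x)‖ₑ ∂μ = ∫⁻ x, ‖g x - h x‖ₑ ∂μ :=
    hT.lintegral_comp hm1
  have hm2 : Measurable fun x => ‖g (Tn n x) - h (Tn n x)‖ₑ := hm1.comp (hTn n).measurable
  have hm3 : Measurable fun x => ‖h (Tn n x) - h (T x)‖ₑ :=
    ((hhm.comp (hTn n).measurable).sub (hhm.comp hT.measurable)).enorm
  calc μ {x | Φ (Tn n x) ≠ Φ (T x)} ≤ _ := hkey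
    _ ≤ _ := htri
    _ = ∫⁻ x, ‖g (Tn n x) - h (Tn n x)‖ₑ ∂μ + ∫⁻ x, ‖h (Tn n x) - h (T x)‖ₑ ∂μ +
        ∫⁻ x, ‖g (T x) - h (T x)‖ₑ ∂μ := by
          have h4 : ∫⁻ x, (‖g (Tn n x) - h (Tn n x)‖ₑ + ‖h (Tn n x) - h (T x)‖ₑ) ∂μ =
            ∫⁻ x, ‖g (Tn n x) - h (Tn n x)‖ₑ ∂μ + ∫⁻ x, ‖h (Tn n x) - h (T x)‖ₑ ∂μ :=
            lintegral_add_left hm2 _
          have h5 : ∫⁻ x, ((‖g (Tn n x) - h (Tn n x)‖ₑ + ‖h (Tn n x) - h (T x)‖ₑ) +
            ‖g (T x) - h (T x)‖ₑ) ∂μ =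
            ∫⁻ x, (‖g (Tn n x) - h (Tn n x)‖ₑ + ‖h (Tn n x) - h (T x)‖ₑ) ∂μ +
              ∫⁻ x, ‖g (T x) - h (T x)‖ₑ ∂μ := lintegral_add_left (hm2.add hm3) _
          rw [h5, h4]
    _ ≤ ε / 3 + ε / 3 + ε / 3 := by
          rw [e1, e2]
          exact add_le_add (add_le_add hh (hN n hn)) hh
    _ = ε := ENNReal.add_thirds ε

end Pool.Agent.Helper802.OD.N_tendsto_measure_ne
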