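import Mathlib
import Pool.Agent.Helper802.OD.Base
import Pool.Agent.Helper802.OD.Easy
import Pool.Agent.Helper802.OD.Anal
import Pool.Agent.Helper802.ODS.tendsto_measure_ne

set_option autoImplicit false
open MeasureTheory Set Filter Topology
open scoped ContDiff ENNReal

noncomputable section

open Pool.Agent.Helper802.OD Pool.Agent.Helper802.OD.N_tendsto_measure_ne

namespace Pool.Agent.Helper802.OD.N_coding_equivariant



-- TARGET
theorem ce_dvd (q : ℕ → ℕ) (hq : ∀ k, q k ∣ q (k + 1)) {k m : ℕ} (hkm : k ≤ m) : q k ∣ q m := by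
  induction m, hkm using Nat.le_induction with
  | base => exact dvd_rfl
  | succ m _ ih => exact ih.trans (hq m)

theorem ce_coord (q : ℕ → ℕ) (hq : ∀ k, q k ∣ q (k + 1)) (y : odometer q hq) {k m : ℕ}
    (hkm : k ≤ m) (hd : q k ∣ q m) :
    ZMod.castHom hd (ZMod (q k)) ((y : (k : ℕ) → ZMod (q k)) m) =
      (y : (k : ℕ) → ZMod (q k)) k := by
  induction m, hkm using Nat.le_induction with
  | base =>
    have : ZMod.castHom hd (ZMod (q k)) = RingHom.id _ := Subsingleton.elim _ _
    rw [this]; rfl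
  | succ m hkm ih =>
    have hd' := ce_dvd q hq hkm
    rw [← ih hd']
    have h1 : ZMod.castHom (hq m) (ZMod (q m)) ((y : (k : ℕ) → ZMod (q k)) (m + 1)) =
      (y : (k : ℕ) → ZMod (q k)) m := y.2 m
    rw [← h1]
    have h2 : ZMod.castHom hd (ZMod (q k)) =
        (ZMod.castHom hd' (ZMod (q k))).comp (ZMod.castHom (hq m) (ZMod (q m))) :=
      Subsingleton.elim _ _
    rw [h2]
    rfl

/-- Equivariance in the limit. -/
theorem coding_equivariant {α : Type} [MetricSpace α] [CompactSpace α] [MeasurableSpace α]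
    [BorelSpace α] (μ : Measure α) [IsProbabilityMeasure μ]
    (q : ℕ → ℕ) (hq : ∀ k, q k ∣ q (k + 1)) [∀ k, NeZero (q k)]
    (h : (n : ℕ) → α → ZMod (q n)) (hm : ∀ n, Measurable (h n))
    (T : α → α) (Tn : ℕ → α → α) (hT : MeasurePreserving T μ μ)
    (hTn : ∀ n, MeasurePreserving (Tn n) μ μ)
    (hlim : ∀ x, Tendsto (fun n => Tn n x) atTop (𝓝 (T x)))
    (heq : ∀ n x, h n (Tn (n + 1) x) = h n x + 1)
    (Φ : α → odometer q hq) (hΦ : Measurable Φ)
    (hlimΦ : ∀ᵐ x ∂μ, ∀ᶠ n in atTop, (Φ x : (k : ℕ) → ZMod (q k)) n = h n x) :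
    ∀ᵐ x ∂μ, Φ (T x) = Φ x + odoOne q hq := by
  have hcoord : ∀ k, Measurable fun x => (Φ x : (k : ℕ) → ZMod (q k)) k := fun k =>
    (measurable_pi_apply k).comp (measurable_subtype_coe.comp hΦ)
  have key : ∀ k, ∀ᵐ x ∂μ, (Φ (T x) : (k : ℕ) → ZMod (q k)) k =
      (Φ x : (k : ℕ) → ZMod (q k)) k + 1 := by
    intro k
    obtain ⟨P, hP⟩ : ∃ P : α → ZMod (q k), P = fun x => (Φ x : (k : ℕ) → ZMod (q k)) k := ⟨_, rfl⟩
    have hPm : Measurable P := by rw [hP]; exact hcoord k
    obtain ⟨D, hD⟩ : ∃ D : ℕ → Set α, D = fun m => {x | P x ≠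
        (if hkm : k ≤ m then ZMod.castHom (ce_dvd q hq hkm) (ZMod (q k)) (h m x) else 0)} :=
      ⟨_, rfl⟩
    have hDm : ∀ m, MeasurableSet (D m) := by
      intro m
      rw [hD]
      have h1 : Measurable fun x => (if hkm : k ≤ m then
          ZMod.castHom (ce_dvd q hq hkm) (ZMod (q k)) (h m x) else 0) := by
        by_cases hkm : k ≤ m
        · simp only [hkm, dif_pos]
          exact (measurable_of_finite _).comp (hm m)
        · simp only [hkm, dif_neg, not_false_iff]
          exact measurable_const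
      exact (measurableSet_eq_fun hPm h1).compl
    have hDlim : Tendsto (fun m => μ (D m)) atTop (𝓝 0) := by
      have h1 := tendsto_measure_of_ae_tendsto_indicator_of_isFiniteMeasure (μ := μ) (L := atTop)
        (A := ∅) (As := D) MeasurableSet.empty hDm (by
          filter_upwards [hlimΦ] with x hx
          filter_upwards [hx, eventually_ge_atTop k] with m h2 h3
          simp only [mem_empty_iff_false, iff_false]
          rw [hD]
          simp only [mem_setOf_eq, not_not, h3, dif_pos]
          rw [← h2, hP]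
          exact (ce_coord q hq (Φ x) h3 _).symm)
      rwa [measure_empty] at h1
    have hA := tendsto_measure_ne μ P hPm T Tn hT hTn hlim
    have hA' : Tendsto (fun n => μ {x | P (Tn (n + 1) x) ≠ P (T x)}) atTop (𝓝 0) :=
      hA.comp (tendsto_add_atTop_nat 1)
    have hsum : Tendsto (fun n => μ {x | P (Tn (n + 1) x) ≠ P (T x)} + μ (D n) + μ (D n)) atTop
        (𝓝 (0 + 0 + 0)) := (hA'.add hDlim).add hDlim
    rw [add_zero, add_zero] at hsum
    have hle : ∀ᶠ n in atTop, μ {x | ¬ (P (T x) = P x + 1)} ≤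
        μ {x | P (Tn (n + 1) x) ≠ P (T x)} + μ (D n) + μ (D n) := by
      filter_upwards [eventually_ge_atTop k] with n hn
      have hsub : {x | ¬ (P (T x) = P x + 1)} ⊆
          ({x | P (Tn (n + 1) x) ≠ P (T x)} ∪ (Tn (n + 1)) ⁻¹' (D n)) ∪ D n := by
        intro x hx
        by_contra hcon
        simp only [mem_union, not_or] at hcon
        obtain ⟨⟨h1, h2⟩, h3⟩ := hcon
        apply hx
        have h1' : P (Tn (n + 1) x) = P (T x) := not_not.1 h1
        rw [mem_preimage, hD] at h2
        rw [hD] at h3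
        simp only [mem_setOf_eq, not_not, hn, dif_pos] at h2 h3
        rw [← h1', h2, heq, map_add, map_one, ← h3]
      refine (measure_mono hsub).trans ((measure_union_le _ _).trans ?_)
      refine add_le_add ((measure_union_le _ _).trans ?_) le_rfl
      rw [(hTn (n + 1)).measure_preimage (hDm n).nullMeasurableSet]
    have h0 : μ {x | ¬ (P (T x) = P x + 1)} ≤ 0 := ge_of_tendsto hsum hle
    have h00 := le_antisymm h0 bot_le
    rw [hP] at h00
    exact h00
  have hall := ae_all_iff.2 key
  filter_upwards [hall] with x hx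
  apply Subtype.ext
  funext k
  rw [hx k]
  rfl

end Pool.Agent.Helper802.OD.N_coding_equivariant
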