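import Mathlib
import Pool.Agent.Helper802.OD.Base
import Pool.Agent.Helper802.OD.Easy
import Pool.Agent.Helper802.OD.Anal

set_option autoImplicit false
open MeasureTheory Set Filter Topology
open scoped ContDiff ENNReal

noncomputable section

open Pool.Agent.Helper802.OD

namespace Pool.Agent.Helper802.OD.N_coding_inverse


-- TARGET
/-- The limit coding is almost everywhere injective, with measurable inverse. -/
theorem coding_inverse {α : Type} [MetricSpace α] [CompactSpace α] [Nonempty α] [MeasurableSpace α]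
    [BorelSpace α] (μ : Measure α) [IsProbabilityMeasure μ]
    (q : ℕ → ℕ) (hq : ∀ k, q k ∣ q (k + 1)) [∀ k, NeZero (q k)]
    (h : (n : ℕ) → α → ZMod (q n)) (ψ : (n : ℕ) → ZMod (q (n + 1)) → α)
    (hm : ∀ n, Measurable (h n))
    (hs : ∑' n, μ {x | (1 / 2 : ℝ) ^ n < dist (ψ n (h (n + 1) x)) x} ≠ ⊤)
    (Φ : α → odometer q hq) (hΦ : Measurable Φ)
    (hlimΦ : ∀ᵐ x ∂μ, ∀ᶠ n in atTop, (Φ x : (k : ℕ) → ZMod (q k)) n = h n x) :
    ∃ Ψ : odometer q hq → α, Measurable Ψ ∧ ∀ᵐ x ∂μ, Ψ (Φ x) = x := by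
  have hgm : ∀ n : ℕ, Measurable (fun y : odometer q hq =>
      ψ n ((y : (k : ℕ) → ZMod (q k)) (n + 1))) := fun n =>
    (measurable_of_finite (ψ n)).comp ((measurable_pi_apply (n + 1)).comp measurable_subtype_coe)
  refine ⟨fun y => limUnder atTop (fun n => ψ n ((y : (k : ℕ) → ZMod (q k)) (n + 1))),
    (StronglyMeasurable.limUnder fun n => (hgm n).stronglyMeasurable).measurable, ?_⟩
  have h1 := ae_eventually_notMem hs
  filter_upwards [h1, hlimΦ] with x hx1 hx2
  apply Tendsto.limUnder_eq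
  rw [tendsto_iff_dist_tendsto_zero]
  have h2 : ∀ᶠ n in atTop, (Φ x : (k : ℕ) → ZMod (q k)) (n + 1) = h (n + 1) x :=
    (tendsto_add_atTop_nat 1).eventually hx2
  have h3 : Tendsto (fun n : ℕ => (1 / 2 : ℝ) ^ n) atTop (𝓝 0) :=
    tendsto_pow_atTop_nhds_zero_of_lt_one (by norm_num) (by norm_num)
  refine squeeze_zero' (Eventually.of_forall fun _ => dist_nonneg) ?_ h3
  filter_upwards [hx1, h2] with n hn1 hn2
  rw [hn2]
  have hn1' : ¬ (1 / 2 : ℝ) ^ n < dist (ψ n (h (n + 1) x)) x := hn1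
  exact not_lt.mp hn1'

end Pool.Agent.Helper802.OD.N_coding_inverse
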