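import Mathlib
import Pool.Agent.Helper802.OD.Base
import Pool.Agent.Helper802.OD.Easy
import Pool.Agent.Helper802.OD.Anal

set_option autoImplicit false
open MeasureTheory Set Filter Topology
open scoped ContDiff ENNReal

noncomputable section

open Pool.Agent.Helper802.OD

namespace Pool.Agent.Helper802.OD.N_exists_staircase

-- TARGET
theorem exists_staircase (δ : ℝ) (h0 : 0 < δ) (h1 : δ < 1) :
    ∃ ρ : ℝ → ℝ, ContDiff ℝ ∞ ρ ∧ (∀ t, ρ (t + 1) = ρ t + 1) ∧
      ∀ t, 0 ≤ t → t ≤ 1 - δ → ρ t = 0 := by
  have hf0 : ∀ t : ℝ, t ≤ 1 - δ → Real.smoothTransition ((t - (1 - δ)) / δ) = 0 := by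
    intro t ht
    exact Real.smoothTransition.zero_of_nonpos
      (div_nonpos_of_nonpos_of_nonneg (by linarith) h0.le)
  have hf1 : ∀ t : ℝ, 1 ≤ t → Real.smoothTransition ((t - (1 - δ)) / δ) = 1 := by
    intro t ht
    refine Real.smoothTransition.one_of_one_le ?_
    rw [le_div_iff₀ h0]
    linarith
  refine ⟨fun t => (⌊t⌋ : ℝ) + Real.smoothTransition ((Int.fract t - (1 - δ)) / δ), ?_, ?_, ?_⟩
  · rw [contDiff_iff_contDiffAt]
    intro t
    obtain ⟨k, hk1, hk2⟩ : ∃ k : ℤ, (k : ℝ) - 1 < t ∧ t < k + 1 - δ := by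
      rcases lt_or_eq_of_le (Int.floor_le t) with h | h
      · refine ⟨⌊t⌋ + 1, ?_, ?_⟩
        · push_cast; linarith
        · push_cast
          have := Int.lt_floor_add_one t
          linarith
      · refine ⟨⌊t⌋, by linarith, by linarith⟩
    have hsm : ContDiffAt ℝ ∞
        (fun s : ℝ => ((k : ℝ) - 1) + Real.smoothTransition (((s - k + 1) - (1 - δ)) / δ)) t := by
      refine ContDiff.contDiffAt ?_
      refine contDiff_const.add (Real.smoothTransition.contDiff.comp ?_)
      exact (((contDiff_id.sub contDiff_const).add contDiff_const).sub contDiff_const).div_const δ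
    refine hsm.congr_of_eventuallyEq ?_
    filter_upwards [Ioo_mem_nhds hk1 hk2] with s hs
    rcases lt_or_ge s (k : ℝ) with h | h
    · have hfl : ⌊s⌋ = k - 1 := by
        rw [Int.floor_eq_iff]
        push_cast
        exact ⟨hs.1.le, by linarith⟩
      have hfr : Int.fract s = s - k + 1 := by
        rw [Int.fract, hfl]
        push_cast
        ring
      rw [hfl, hfr]
      push_cast
      rfl
    · have hs2 := hs.2
      have hfl : ⌊s⌋ = k := by
        rw [Int.floor_eq_iff]
        exact ⟨h, by linarith⟩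
      have hfr : Int.fract s = s - k := by
        rw [Int.fract, hfl]
      rw [hfl, hfr, hf0 (s - k) (by linarith), hf1 (s - k + 1) (by linarith)]
      ring
  · intro t
    simp only [Int.floor_add_one, Int.fract_add_one]
    push_cast
    ring
  · intro t ht0 ht1
    have hfl : ⌊t⌋ = 0 := by
      rw [Int.floor_eq_iff]
      push_cast
      exact ⟨ht0, by linarith⟩
    have hfr : Int.fract t = t := by
      rw [Int.fract, hfl]
      simp
    simp only [hfl, hfr, hf0 t ht1]
    simp

end Pool.Agent.Helper802.OD.N_exists_staircase
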