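import Mathlib
import Pool.Agent.Helper802.OD.Base
import Pool.Agent.Helper802.OD.Easy
import Pool.Agent.Helper802.OD.Anal
import Pool.Agent.Helper802.ODS.exists_staircase

set_option autoImplicit false
open MeasureTheory Set Filter Topology
open scoped ContDiff ENNReal

noncomputable section

open Pool.Agent.Helper802.OD Pool.Agent.Helper802.OD.N_exists_staircase

namespace Pool.Agent.Helper802.OD.N_exists_SB



-- TARGET
theorem stair_int (ρ : ℝ → ℝ) (hρ : ∀ t, ρ (t + 1) = ρ t + 1) (n : ℤ) :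
    ∀ t, ρ (t + n) = ρ t + n := by
  induction n using Int.induction_on with
  | zero =>
    intro t
    simp
  | succ i ih =>
    intro t
    have h := ih t
    push_cast at h ⊢
    rw [← add_assoc, hρ, h]
    ring
  | pred i ih =>
    intro t
    have h1 := hρ (t + ((-(i : ℤ) - 1 : ℤ) : ℝ))
    have h2 : t + ((-(i : ℤ) - 1 : ℤ) : ℝ) + 1 = t + ((-(i : ℤ) : ℤ) : ℝ) := by
      push_cast
      ring
    rw [h2, ih t] at h1
    have h3 : ((-(i : ℤ) - 1 : ℤ) : ℝ) = ((-(i : ℤ) : ℤ) : ℝ) - 1 := by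
      push_cast
      ring
    rw [h3] at h1 ⊢
    linarith

theorem stair_val (ρ : ℝ → ℝ) (δ : ℝ) (hρ : ∀ t, ρ (t + 1) = ρ t + 1)
    (h0 : ∀ t, 0 ≤ t → t ≤ 1 - δ → ρ t = 0) (n : ℤ) (t : ℝ) (h : (n : ℝ) ≤ t)
    (h' : t ≤ n + (1 - δ)) : ρ t = n := by
  have h1 := stair_int ρ hρ n (t - n)
  rw [sub_add_cancel, h0 (t - n) (by linarith) (by linarith), zero_add] at h1
  exact h1

theorem exists_SB (q c : ℕ) (hq : 0 < q) (hc : 0 < c) (δ : ℝ) (h0 : 0 < δ) (h1 : δ < 1) :
    Nonempty (SB q c δ) := by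
  have hq' : (0 : ℝ) < (q : ℝ) := Nat.cast_pos.2 hq
  have hq1 : (1 : ℝ) ≤ (q : ℝ) := Nat.one_le_cast.2 hq
  have hc' : (0 : ℝ) < (c : ℝ) := Nat.cast_pos.2 hc
  obtain ⟨ρ, hρs, hρ1, hρ0⟩ := exists_staircase δ h0 h1
  obtain ⟨ρ', hρs', hρ1', hρ0'⟩ := exists_staircase (δ / q) (div_pos h0 hq')
    ((div_lt_one hq').2 (by linarith))
  refine ⟨
    { s := fun x => ρ ((c : ℝ) * q * x) / q
      b := fun y => ((q : ℝ) * (1 + ρ' (y - 1 / q)) - ρ ((q : ℝ) * y)) / ((c : ℝ) * q)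
      s_smooth := ?_
      b_smooth := ?_
      s_step := ?_
      b_per := ?_
      s_flat := ?_
      b_flat := ?_ }⟩
  · exact (hρs.comp (contDiff_const.mul contDiff_id)).div_const _
  · exact ((contDiff_const.mul (contDiff_const.add
      (hρs'.comp (contDiff_id.sub contDiff_const)))).sub
      (hρs.comp (contDiff_const.mul contDiff_id))).div_const _
  · intro x
    have e : (c : ℝ) * q * (x + 1 / ((c : ℝ) * q)) = (c : ℝ) * q * x + 1 := by
      field_simp
    show ρ ((c : ℝ) * q * (x + 1 / ((c : ℝ) * q))) / q = ρ ((c : ℝ) * q * x) / q + 1 / q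
    rw [e, hρ1]
    ring
  · intro y
    have e1 : y + 1 - 1 / (q : ℝ) = (y - 1 / q) + 1 := by ring
    have e2 : (q : ℝ) * (y + 1) = (q : ℝ) * y + ((q : ℤ) : ℝ) := by
      push_cast
      ring
    show ((q : ℝ) * (1 + ρ' (y + 1 - 1 / q)) - ρ ((q : ℝ) * (y + 1))) / ((c : ℝ) * q) =
      ((q : ℝ) * (1 + ρ' (y - 1 / q)) - ρ ((q : ℝ) * y)) / ((c : ℝ) * q)
    rw [e1, e2, hρ1', stair_int ρ hρ1]
    push_cast
    congr 1
    ring
  · intro x hx
    show ρ ((c : ℝ) * q * x) / q = (⌊(c : ℝ) * q * x⌋ : ℝ) / q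
    rw [stair_val ρ δ hρ1 hρ0 ⌊(c : ℝ) * q * x⌋ _ (Int.floor_le _) ?_]
    have h2 := Int.floor_add_fract ((c : ℝ) * q * x)
    linarith
  · intro y hy
    show ((q : ℝ) * (1 + ρ' (y - 1 / q)) - ρ ((q : ℝ) * y)) / ((c : ℝ) * q) = _
    congr 1
    have hfl := Int.floor_add_fract ((q : ℝ) * y)
    have hfr := Int.fract_nonneg ((q : ℝ) * y)
    have hρq : ρ ((q : ℝ) * y) = (⌊(q : ℝ) * y⌋ : ℝ) :=
      stair_val ρ δ hρ1 hρ0 _ _ (Int.floor_le _) (by linarith)
    rw [hρq]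
    generalize hj : ⌊(q : ℝ) * y⌋ = j at *
    have hqz : (0 : ℤ) < (q : ℤ) := by exact_mod_cast hq
    have hdm := Int.emod_add_mul_ediv j (q : ℤ)
    have hr0 := Int.emod_nonneg j hqz.ne'
    have hrq := Int.emod_lt_of_pos j hqz
    generalize hr : j % (q : ℤ) = r at *
    generalize hm : j / (q : ℤ) = m at *
    have hjr : (j : ℝ) = (r : ℝ) + (q : ℝ) * m := by
      rw [← hdm]
      push_cast
      ring
    have hrq' : (r : ℝ) + 1 ≤ (q : ℝ) := by exact_mod_cast hrq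
    have hqy : (q : ℝ) * (1 / q) = 1 := mul_one_div_cancel hq'.ne'
    have hqd : (q : ℝ) * (δ / q) = δ := mul_div_cancel₀ δ hq'.ne'
    by_cases hr1 : r = 0
    · have e1 : (-j) % (q : ℤ) = 0 := by
        rw [← hdm, hr1, zero_add]
        exact Int.emod_eq_zero_of_dvd ((Dvd.intro m rfl).neg_right)
      have e2 : ρ' (y - 1 / q) = ((m - 1 : ℤ) : ℝ) := by
        subst hr1
        refine stair_val ρ' (δ / q) hρ1' hρ0' (m - 1) _ ?_ ?_
        · push_cast at hjr ⊢
          have h3 : (q : ℝ) * ((m : ℝ) - 1) ≤ (q : ℝ) * (y - 1 / q) := by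
            rw [mul_sub, mul_sub, hqy]
            linarith
          exact le_of_mul_le_mul_left h3 hq'
        · push_cast at hjr ⊢
          have h3 : (q : ℝ) * (y - 1 / q) ≤ (q : ℝ) * ((m : ℝ) - 1 + (1 - δ / q)) := by
            rw [mul_sub, mul_add, mul_sub, mul_sub, hqy, hqd]
            linarith
          exact le_of_mul_le_mul_left h3 hq'
      rw [e1, e2, hjr, hr1]
      push_cast
      ring
    · have hr1' : 1 ≤ r := by omega
      have hr1'' : (1 : ℝ) ≤ (r : ℝ) := by exact_mod_cast hr1'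
      have e1 : (-j) % (q : ℤ) = q - r := by
        have h4 : -j = (q - r) + (q : ℤ) * (-(m + 1)) := by
          rw [← hdm]
          ring
        rw [h4, Int.add_mul_emod_self_left]
        exact Int.emod_eq_of_lt (by omega) (by omega)
      have e2 : ρ' (y - 1 / q) = ((m : ℤ) : ℝ) := by
        refine stair_val ρ' (δ / q) hρ1' hρ0' m _ ?_ ?_
        · have h3 : (q : ℝ) * (m : ℝ) ≤ (q : ℝ) * (y - 1 / q) := by
            rw [mul_sub, hqy]
            linarith
          exact le_of_mul_le_mul_left h3 hq'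
        · have h3 : (q : ℝ) * (y - 1 / q) ≤ (q : ℝ) * ((m : ℝ) + (1 - δ / q)) := by
            rw [mul_sub, mul_add, mul_sub, hqy, hqd]
            linarith
          exact le_of_mul_le_mul_left h3 hq'
      rw [e1, e2, hjr]
      push_cast
      ring

end Pool.Agent.Helper802.OD.N_exists_SB
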