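import Mathlib
import Pool.Agent.Helper802.OD.Base
import Pool.Agent.Helper802.OD.Easy
import Pool.Agent.Helper802.OD.Anal

set_option autoImplicit false
open MeasureTheory Set Filter Topology
open scoped ContDiff ENNReal

noncomputable section

open Pool.Agent.Helper802.OD

namespace Pool.Agent.Helper802.OD.N_exists_coding


-- TARGET
/-- Almost consistent codings have a limit in the odometer. -/
theorem exists_coding {α : Type} [MeasurableSpace α] (μ : Measure α) [IsProbabilityMeasure μ]
    (q : ℕ → ℕ) (hq : ∀ k, q k ∣ q (k + 1)) [∀ k, NeZero (q k)]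
    (h : (n : ℕ) → α → ZMod (q n)) (hm : ∀ n, Measurable (h n))
    (hs : ∑' n, μ {x | ZMod.castHom (hq n) (ZMod (q n)) (h (n + 1) x) ≠ h n x} ≠ ⊤) :
    ∃ Φ : α → odometer q hq, Measurable Φ ∧
      ∀ᵐ x ∂μ, ∀ᶠ n in atTop, (Φ x : (k : ℕ) → ZMod (q k)) n = h n x := by
  classical
  have hdvd : ∀ k m, k ≤ m → q k ∣ q m := by
    intro k m hkm
    induction m, hkm using Nat.le_induction with
    | base => exact dvd_rfl
    | succ m _ ih => exact ih.trans (hq m)
  let r : (k m : ℕ) → ZMod (q m) → ZMod (q k) := fun k m y =>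
    if h : q k ∣ q m then ZMod.castHom h (ZMod (q k)) y else 0
  have hr : ∀ k m (hkm : q k ∣ q m) (y : ZMod (q m)),
      r k m y = ZMod.castHom hkm (ZMod (q k)) y := fun k m hkm y => dif_pos hkm
  have hr1 : ∀ k m, k ≤ m → ∀ y : ZMod (q (m + 1)),
      r k m (ZMod.castHom (hq m) (ZMod (q m)) y) = r k (m + 1) y := by
    intro k m hkm y
    rw [hr k m (hdvd k m hkm), hr k (m + 1) (hdvd k (m + 1) (hkm.trans (Nat.le_succ m)))]
    have : (ZMod.castHom (hdvd k m hkm) (ZMod (q k))).comp (ZMod.castHom (hq m) (ZMod (q m))) =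
        ZMod.castHom (hdvd k (m + 1) (hkm.trans (Nat.le_succ m))) (ZMod (q k)) :=
      Subsingleton.elim _ _
    exact RingHom.congr_fun this y
  have hr2 : ∀ k m, k + 1 ≤ m → ∀ y : ZMod (q m),
      ZMod.castHom (hq k) (ZMod (q k)) (r (k + 1) m y) = r k m y := by
    intro k m hkm y
    rw [hr (k + 1) m (hdvd _ m hkm), hr k m (hdvd k m ((Nat.le_succ k).trans hkm))]
    have : (ZMod.castHom (hq k) (ZMod (q k))).comp
        (ZMod.castHom (hdvd (k + 1) m hkm) (ZMod (q (k + 1)))) =
        ZMod.castHom (hdvd k m ((Nat.le_succ k).trans hkm)) (ZMod (q k)) :=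
      Subsingleton.elim _ _
    exact RingHom.congr_fun this y
  have hr3 : ∀ k (y : ZMod (q k)), r k k y = y := by
    intro k y
    rw [hr k k dvd_rfl]
    have : ZMod.castHom (dvd_refl (q k)) (ZMod (q k)) = RingHom.id _ := Subsingleton.elim _ _
    rw [this]
    rfl
  let g : (k m : ℕ) → α → ZMod (q k) := fun k m x => r k m (h m x)
  have hgm : ∀ k m, Measurable (g k m) := fun k m =>
    (Measurable.of_discrete (f := r k m)).comp (hm m)
  let E : ℕ → Set α := fun N => {x | ∀ n, N ≤ n →
    ZMod.castHom (hq n) (ZMod (q n)) (h (n + 1) x) = h n x}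
  have hE : ∀ N, MeasurableSet (E N) := by
    intro N
    have : E N = ⋂ n, ⋂ (_ : N ≤ n), {x | ZMod.castHom (hq n) (ZMod (q n)) (h (n + 1) x) = h n x} := by
      ext x
      simp [E]
    rw [this]
    refine MeasurableSet.iInter (fun n => MeasurableSet.iInter (fun _ => ?_))
    exact measurableSet_eq_fun
      ((Measurable.of_discrete (f := ZMod.castHom (hq n) (ZMod (q n)))).comp (hm (n + 1))) (hm n)
  have hstep : ∀ N x, x ∈ E N → ∀ k m, N ≤ m → k ≤ m → g k (m + 1) x = g k m x := by
    intro N x hx k m hN hk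
    show r k (m + 1) (h (m + 1) x) = r k m (h m x)
    rw [← hr1 k m hk, hx m hN]
  have hconst : ∀ N x, x ∈ E N → ∀ k m, max k N ≤ m → g k m x = g k (max k N) x := by
    intro N x hx k m hm'
    induction m, hm' using Nat.le_induction with
    | base => rfl
    | succ m hm' ih =>
      rw [hstep N x hx k m ((le_max_right _ _).trans hm') ((le_max_left _ _).trans hm'), ih]
  have hconst2 : ∀ N N' x, x ∈ E N → x ∈ E N' → ∀ k, g k (max k N) x = g k (max k N') x := by
    intro N N' x hx hx' k
    rw [← hconst N x hx k (max (max k N) (max k N')) (le_max_left _ _),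
      ← hconst N' x hx' k (max (max k N) (max k N')) (le_max_right _ _)]
  let Φ : α → odometer q hq := fun x =>
    if hx : ∃ N, x ∈ E N then ⟨fun k => g k (max k hx.choose) x, by
      intro k
      have h1 := hx.choose_spec
      show ZMod.castHom (hq k) (ZMod (q k)) (r (k + 1) (max (k + 1) hx.choose)
        (h (max (k + 1) hx.choose) x)) = g k (max k hx.choose) x
      rw [hr2 k _ (le_max_left _ _)]
      exact hconst _ x h1 k _ (max_le_max_right _ (Nat.le_succ k))⟩
    else 0
  have hΦ : ∀ N x, x ∈ E N → ∀ k, (Φ x : (k : ℕ) → ZMod (q k)) k = g k (max k N) x := by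
    intro N x hx k
    have hx' : ∃ N, x ∈ E N := ⟨N, hx⟩
    have h1 : Φ x = ⟨fun k => g k (max k hx'.choose) x, _⟩ := dif_pos hx'
    rw [h1]
    exact hconst2 _ _ x hx'.choose_spec hx k
  have hΦ0 : ∀ x, (¬ ∃ N, x ∈ E N) → ∀ k, (Φ x : (k : ℕ) → ZMod (q k)) k = 0 := by
    intro x hx k
    have h1 : Φ x = 0 := dif_neg hx
    rw [h1]
    rfl
  refine ⟨Φ, ?_, ?_⟩
  · have hmain : Measurable (fun x => (Φ x : (k : ℕ) → ZMod (q k))) := by
      rw [measurable_pi_iff]
      intro k
      refine measurable_to_countable' (fun a => ?_)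
      have : (fun x => (Φ x : (k : ℕ) → ZMod (q k)) k) ⁻¹' {a} =
          (⋃ N, E N ∩ (g k (max k N)) ⁻¹' {a}) ∪ ((⋃ N, E N)ᶜ ∩ {x | (0 : ZMod (q k)) = a}) := by
        ext x
        simp only [mem_preimage, mem_singleton_iff, mem_union, mem_iUnion, mem_inter_iff,
          mem_compl_iff, mem_setOf_eq]
        constructor
        · intro hx
          by_cases hex : ∃ N, x ∈ E N
          · obtain ⟨N, hN⟩ := hex
            left
            exact ⟨N, hN, by rw [← hΦ N x hN k]; exact hx⟩
          · right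
            exact ⟨hex, by rw [← hΦ0 x hex k]; exact hx⟩
        · rintro (⟨N, hN, hx⟩ | ⟨hex, hx⟩)
          · rw [hΦ N x hN k]; exact hx
          · rw [hΦ0 x hex k]; exact hx
      rw [this]
      refine (MeasurableSet.iUnion (fun N => (hE N).inter
        ((hgm k _) (measurableSet_singleton a)))).union ?_
      exact (MeasurableSet.iUnion hE).compl.inter (MeasurableSet.const _)
    exact hmain.subtype_mk
  · filter_upwards [ae_eventually_notMem hs] with x hx
    rw [eventually_atTop] at hx
    obtain ⟨N, hN⟩ := hx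
    have hxE : x ∈ E N := by
      intro n hn
      by_contra hne
      exact hN n hn hne
    filter_upwards [eventually_ge_atTop N] with n hn
    rw [hΦ N x hxE n, max_eq_left hn]
    exact hr3 n _

end Pool.Agent.Helper802.OD.N_exists_coding
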