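import Mathlib
import Pool.Agent.Helper802.OD.Base
import Pool.Agent.Helper802.OD.Easy
import Pool.Agent.Helper802.OD.Anal

set_option autoImplicit false
open MeasureTheory Set Filter Topology
open scoped ContDiff ENNReal

noncomputable section

open Pool.Agent.Helper802.OD

namespace Pool.Agent.Helper802.OD.N_close_aux




-- TARGET
theorem close_aux_smooth (K : TD) (a : ℝ) :
    ContDiff ℝ ∞ (fun q : ℝ × (ℝ × ℝ) => Phi K a q.1 q.2) := by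
  unfold Phi
  exact K.hF.comp ((K.hG.comp contDiff_snd).add (contDiff_const.prodMk contDiff_fst))

theorem close_aux_smooth0 (K : TD) (a : ℝ) :
    ContDiff ℝ ∞ (fun q : ℝ × (ℝ × ℝ) => Phi K a 0 q.2) := by
  unfold Phi
  exact K.hF.comp ((K.hG.comp contDiff_snd).add contDiff_const)

theorem close_aux_box (y : ℝ × ℝ) :
    y + zz (-⌊y.1⌋, -⌊y.2⌋) ∈ (Icc (0 : ℝ) 1 ×ˢ Icc (0 : ℝ) 1 : Set (ℝ × ℝ)) := by
  have h1 : y.1 + ((-⌊y.1⌋ : ℤ) : ℝ) = Int.fract y.1 := by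
    rw [← Int.self_sub_floor]; push_cast; ring
  have h2 : y.2 + ((-⌊y.2⌋ : ℤ) : ℝ) = Int.fract y.2 := by
    rw [← Int.self_sub_floor]; push_cast; ring
  refine ⟨?_, ?_⟩
  · show y.1 + ((-⌊y.1⌋ : ℤ) : ℝ) ∈ Icc (0 : ℝ) 1
    rw [h1]
    exact ⟨Int.fract_nonneg _, (Int.fract_lt_one _).le⟩
  · show y.2 + ((-⌊y.2⌋ : ℤ) : ℝ) ∈ Icc (0 : ℝ) 1
    rw [h2]
    exact ⟨Int.fract_nonneg _, (Int.fract_lt_one _).le⟩

/-- smallness of derivatives for periodic families -/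
theorem close_aux (K : TD) (a : ℝ) (n : ℕ) (ε : ℝ) (hε : 0 < ε) :
    ∀ᶠ t in 𝓝 (0 : ℝ), ∀ k ≤ n, ∀ p,
      ‖iteratedFDeriv ℝ k (fun p => (Phi K a t p).1 - (Phi K a 0 p).1) p‖ ≤ ε ∧
      ‖iteratedFDeriv ℝ k (fun p => (Phi K a t p).2 - (Phi K a 0 p).2) p‖ ≤ ε := by
  have e1 := small_of_periodic
    (fun q : ℝ × (ℝ × ℝ) => (Phi K a q.1 q.2).1 - (Phi K a 0 q.2).1)
    ((contDiff_fst.comp (close_aux_smooth K a)).sub (contDiff_fst.comp (close_aux_smooth0 K a)))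
    (Icc (0 : ℝ) 1 ×ˢ Icc (0 : ℝ) 1) (isCompact_Icc.prod isCompact_Icc)
    (fun y => ⟨zz (-⌊y.1⌋, -⌊y.2⌋), close_aux_box y, fun t z => by
      show (Phi K a t (z + zz (-⌊y.1⌋, -⌊y.2⌋))).1 - (Phi K a 0 (z + zz (-⌊y.1⌋, -⌊y.2⌋))).1 =
        (Phi K a t z).1 - (Phi K a 0 z).1
      rw [Phi_int, Phi_int, Prod.fst_add, Prod.fst_add]; ring⟩)
    0 (fun y => by simp) n ε hε
  have e2 := small_of_periodic
    (fun q : ℝ × (ℝ × ℝ) => (Phi K a q.1 q.2).2 - (Phi K a 0 q.2).2)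
    ((contDiff_snd.comp (close_aux_smooth K a)).sub (contDiff_snd.comp (close_aux_smooth0 K a)))
    (Icc (0 : ℝ) 1 ×ˢ Icc (0 : ℝ) 1) (isCompact_Icc.prod isCompact_Icc)
    (fun y => ⟨zz (-⌊y.1⌋, -⌊y.2⌋), close_aux_box y, fun t z => by
      show (Phi K a t (z + zz (-⌊y.1⌋, -⌊y.2⌋))).2 - (Phi K a 0 (z + zz (-⌊y.1⌋, -⌊y.2⌋))).2 =
        (Phi K a t z).2 - (Phi K a 0 z).2
      rw [Phi_int, Phi_int, Prod.snd_add, Prod.snd_add]; ring⟩)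
    0 (fun y => by simp) n ε hε
  filter_upwards [e1, e2] with t h1 h2
  intro k hk p
  exact ⟨h1 k hk p, h2 k hk p⟩

end Pool.Agent.Helper802.OD.N_close_aux
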