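import Mathlib
import Pool.Agent.Helper802.OD.Base
import Pool.Agent.Helper802.OD.Easy
import Pool.Agent.Helper802.OD.Anal
import Pool.Agent.Helper802.ODS.close_aux

set_option autoImplicit false
open MeasureTheory Set Filter Topology
open scoped ContDiff ENNReal

noncomputable section

open Pool.Agent.Helper802.OD Pool.Agent.Helper802.OD.N_close_aux

namespace Pool.Agent.Helper802.OD.N_exists_good



-- TARGET
theorem exists_good_tendsto (S : St) :
    Tendsto (fun c : ℕ => 1 / ((c : ℝ) * S.q)) atTop (𝓝 0) := by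
  have hq : (0 : ℝ) < S.q := by exact_mod_cast S.hq
  have h1 : Tendsto (fun c : ℕ => (c : ℝ) * S.q) atTop atTop :=
    tendsto_natCast_atTop_atTop.atTop_mul_const hq
  exact Tendsto.congr (fun c => (one_div _).symm) h1.inv_tendsto_atTop

theorem exists_good (S : St) (n : ℕ) : ∃ c, Good S c n := by
  have hT := exists_good_tendsto S
  have hT' : Tendsto (fun c : ℕ => -(1 / ((c : ℝ) * S.q))) atTop (𝓝 0) := by
    have := hT.neg
    rwa [neg_zero] at this
  have hpos : (0 : ℝ) < (1 / 2) ^ n := by positivity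
  have hpos' : (0 : ℝ) < (1 / 2) ^ (n + 1) := by positivity
  have e1 : ∀ᶠ c : ℕ in atTop, 2 ≤ c := eventually_ge_atTop 2
  have e2 : ∀ᶠ c : ℕ in atTop, (S.q : ℝ) * 2 ^ n ≤ c :=
    tendsto_natCast_atTop_atTop.eventually_ge_atTop _
  have huc : UniformContinuous S.K.FT :=
    CompactSpace.uniformContinuous_of_continuous S.K.FTc
  obtain ⟨η, hη, hη2⟩ := Metric.uniformContinuous_iff.1 huc _ hpos'
  have e3 : ∀ᶠ c : ℕ in atTop, 1 / ((c : ℝ) * S.q) < η := hT.eventually (gt_mem_nhds hη)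
  have e4 := hT.eventually (close_aux S.K (1 / (S.q : ℝ)) n ((1 / 2) ^ n) hpos)
  have e5 := hT'.eventually (close_aux S.K (-(1 / (S.q : ℝ))) n ((1 / 2) ^ n) hpos)
  obtain ⟨c, h1, h2, h3, h4, h5⟩ := (e1.and (e2.and (e3.and (e4.and e5)))).exists
  exact ⟨c, h1, h2, fun z z' hz => (hη2 (lt_of_le_of_lt hz h3)).le,
    fun k hk p => (h4 k hk p).1, fun k hk p => (h4 k hk p).2,
    fun k hk p => (h5 k hk p).1, fun k hk p => (h5 k hk p).2⟩

end Pool.Agent.Helper802.OD.N_exists_good
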