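import Mathlib
import Pool.Agent.Helper802.OD.Base
import Pool.Agent.Helper802.OD.Easy
import Pool.Agent.Helper802.OD.Anal

set_option autoImplicit false
open MeasureTheory Set Filter Topology
open scoped ContDiff ENNReal

noncomputable section

open Pool.Agent.Helper802.OD

namespace Pool.Agent.Helper802.OD








theorem exl_rate {E : Type} [NormedAddCommGroup E] [NormedSpace ℝ E]
    (g : ℕ → E → ℝ) (G : E → ℝ)
    (h : ∀ n k, k ≤ n → ∀ y, ‖iteratedFDeriv ℝ k (fun y => g (n + 1) y - g n y) y‖ ≤ (1 / 2) ^ n)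
    (hG : ∀ y, Tendsto (fun n => g n y) atTop (𝓝 (G y))) (n : ℕ) (y : E) :
    dist (g n y) (G y) ≤ 2 * (1 / 2) ^ n := by
  have h1 : ∀ n, dist (g n y) (g (n + 1) y) ≤ 2 / 2 / 2 ^ n := by
    intro n
    have h2 := h n 0 (Nat.zero_le n) y
    rw [norm_iteratedFDeriv_zero, Real.norm_eq_abs] at h2
    rw [dist_comm, Real.dist_eq]
    refine h2.trans (le_of_eq ?_)
    rw [one_div, inv_pow]
    norm_num
  have h3 := dist_le_of_le_geometric_two_of_tendsto h1 (hG y) n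
  refine h3.trans (le_of_eq ?_)
  rw [one_div, inv_pow, div_eq_mul_inv]

theorem exl_inv (A B : ℕ → ℝ × ℝ → ℝ × ℝ) (F G : ℝ × ℝ → ℝ × ℝ)
    (hAB : ∀ n p, A n (B n p) = p) (hA : ∀ n p, dist (A n p) (F p) ≤ 2 * (1 / 2) ^ n)
    (hB : ∀ p, Tendsto (fun n => B n p) atTop (𝓝 (G p))) (hF : Continuous F) (p : ℝ × ℝ) :
    F (G p) = p := by
  have h1 : Tendsto (fun n => F (B n p)) atTop (𝓝 (F (G p))) := (hF.tendsto _).comp (hB p)
  have h2 : Tendsto (fun n => F (B n p)) atTop (𝓝 p) := by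
    rw [tendsto_iff_dist_tendsto_zero]
    have h3 : Tendsto (fun n : ℕ => 2 * (1 / 2 : ℝ) ^ n) atTop (𝓝 0) := by
      have := (tendsto_pow_atTop_nhds_zero_of_lt_one (by norm_num : (0:ℝ) ≤ 1 / 2)
        (by norm_num : (1:ℝ) / 2 < 1)).const_mul 2
      simpa using this
    refine squeeze_zero (fun n => dist_nonneg) (fun n => ?_) h3
    have h4 := hA n (B n p)
    rw [hAB, dist_comm] at h4
    exact h4
  exact tendsto_nhds_unique h1 h2

theorem exl_int (A : ℕ → ℝ × ℝ → ℝ × ℝ) (F : ℝ × ℝ → ℝ × ℝ)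
    (hA : ∀ p, Tendsto (fun n => A n p) atTop (𝓝 (F p)))
    (hi : ∀ n (z : ℤ × ℤ) p, A n (p + zz z) = A n p + zz z) (z : ℤ × ℤ) (p : ℝ × ℝ) :
    F (p + zz z) = F p + zz z := by
  have h1 := hA (p + zz z)
  have h2 : Tendsto (fun n => A n (p + zz z)) atTop (𝓝 (F p + zz z)) := by
    simp only [hi]
    exact (hA p).add_const _
  exact tendsto_nhds_unique h1 h2

theorem exl_dist (A : ℝ × ℝ) (B : ℝ × ℝ) (r : ℝ) (h1 : dist A.1 B.1 ≤ r) (h2 : dist A.2 B.2 ≤ r) :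
    dist A B ≤ r := by
  rw [Prod.dist_eq]
  exact max_le h1 h2

theorem exl_Tp_succ (W : Tower) (n : ℕ) (p : ℝ × ℝ) : W.Tp (n + 1) p =
    Phi (W.S n).K (1 / ((W.S n).q : ℝ)) (1 / ((W.c n : ℝ) * (W.S n).q)) p := by
  unfold Tower.Tp
  rw [W.K_succ, W.q_succ, Nat.cast_mul]
  exact Phi_step (W.B n) _ _ (W.EF n) (W.EG n) p

theorem exl_Tm_succ (W : Tower) (n : ℕ) (p : ℝ × ℝ) : W.Tm (n + 1) p =
    Phi (W.S n).K (-(1 / ((W.S n).q : ℝ))) (-(1 / ((W.c n : ℝ) * (W.S n).q))) p := by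
  unfold Tower.Tm
  rw [W.K_succ, W.q_succ, Nat.cast_mul]
  exact Phi_step' (W.B n) _ _ (W.EF n) (W.EG n) p

-- TARGET
/-- limit of the approximations -/
theorem Tower.exists_limit (W : Tower) : ∃ (F G : ℝ × ℝ → ℝ × ℝ), ContDiff ℝ ∞ F ∧ ContDiff ℝ ∞ G ∧
    (∀ p, F (G p) = p) ∧ (∀ p, G (F p) = p) ∧
    (∀ (z : ℤ × ℤ) p, F (p + zz z) = F p + zz z) ∧ (∀ (z : ℤ × ℤ) p, G (p + zz z) = G p + zz z) ∧
    (∀ p, Tendsto (fun n => W.Tp n p) atTop (𝓝 (F p))) := by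
  have c1 : ∀ n k, k ≤ n → ∀ y : ℝ × ℝ,
      ‖iteratedFDeriv ℝ k (fun y => (W.Tp (n + 1) y).1 - (W.Tp n y).1) y‖ ≤ (1 / 2) ^ n := by
    intro n k hk y
    have h := (W.good n).close1 k hk y
    have e : (fun y => (W.Tp (n + 1) y).1 - (W.Tp n y).1) = (fun p =>
      (Phi (W.S n).K (1 / ((W.S n).q : ℝ)) (1 / ((W.c n : ℝ) * (W.S n).q)) p).1
        - (Phi (W.S n).K (1 / ((W.S n).q : ℝ)) 0 p).1) := by
      funext p; rw [exl_Tp_succ]; rfl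
    rw [e]; exact h
  have c2 : ∀ n k, k ≤ n → ∀ y : ℝ × ℝ,
      ‖iteratedFDeriv ℝ k (fun y => (W.Tp (n + 1) y).2 - (W.Tp n y).2) y‖ ≤ (1 / 2) ^ n := by
    intro n k hk y
    have h := (W.good n).close2 k hk y
    have e : (fun y => (W.Tp (n + 1) y).2 - (W.Tp n y).2) = (fun p =>
      (Phi (W.S n).K (1 / ((W.S n).q : ℝ)) (1 / ((W.c n : ℝ) * (W.S n).q)) p).2
        - (Phi (W.S n).K (1 / ((W.S n).q : ℝ)) 0 p).2) := by
      funext p; rw [exl_Tp_succ]; rfl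
    rw [e]; exact h
  have c3 : ∀ n k, k ≤ n → ∀ y : ℝ × ℝ,
      ‖iteratedFDeriv ℝ k (fun y => (W.Tm (n + 1) y).1 - (W.Tm n y).1) y‖ ≤ (1 / 2) ^ n := by
    intro n k hk y
    have h := (W.good n).close3 k hk y
    have e : (fun y => (W.Tm (n + 1) y).1 - (W.Tm n y).1) = (fun p =>
      (Phi (W.S n).K (-(1 / ((W.S n).q : ℝ))) (-(1 / ((W.c n : ℝ) * (W.S n).q))) p).1
        - (Phi (W.S n).K (-(1 / ((W.S n).q : ℝ))) 0 p).1) := by
      funext p; rw [exl_Tm_succ]; rfl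
    rw [e]; exact h
  have c4 : ∀ n k, k ≤ n → ∀ y : ℝ × ℝ,
      ‖iteratedFDeriv ℝ k (fun y => (W.Tm (n + 1) y).2 - (W.Tm n y).2) y‖ ≤ (1 / 2) ^ n := by
    intro n k hk y
    have h := (W.good n).close4 k hk y
    have e : (fun y => (W.Tm (n + 1) y).2 - (W.Tm n y).2) = (fun p =>
      (Phi (W.S n).K (-(1 / ((W.S n).q : ℝ))) (-(1 / ((W.c n : ℝ) * (W.S n).q))) p).2
        - (Phi (W.S n).K (-(1 / ((W.S n).q : ℝ))) 0 p).2) := by
      funext p; rw [exl_Tm_succ]; rfl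
    rw [e]; exact h
  have sp : ∀ n, ContDiff ℝ ∞ (W.Tp n) := fun n => Phi_smooth _ _ _
  have sm : ∀ n, ContDiff ℝ ∞ (W.Tm n) := fun n => Phi_smooth _ _ _
  obtain ⟨F1, hF1, lF1⟩ := exists_smooth_limit (fun n y => (W.Tp n y).1)
    (fun n => contDiff_fst.comp (sp n)) c1
  obtain ⟨F2, hF2, lF2⟩ := exists_smooth_limit (fun n y => (W.Tp n y).2)
    (fun n => contDiff_snd.comp (sp n)) c2
  obtain ⟨G1, hG1, lG1⟩ := exists_smooth_limit (fun n y => (W.Tm n y).1)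
    (fun n => contDiff_fst.comp (sm n)) c3
  obtain ⟨G2, hG2, lG2⟩ := exists_smooth_limit (fun n y => (W.Tm n y).2)
    (fun n => contDiff_snd.comp (sm n)) c4
  have hF : ContDiff ℝ ∞ (fun p => (F1 p, F2 p)) := hF1.prodMk hF2
  have hG : ContDiff ℝ ∞ (fun p => (G1 p, G2 p)) := hG1.prodMk hG2
  have lF : ∀ p, Tendsto (fun n => W.Tp n p) atTop (𝓝 ((fun p => (F1 p, F2 p)) p)) :=
    fun p => (lF1 p).prodMk_nhds (lF2 p)
  have lG : ∀ p, Tendsto (fun n => W.Tm n p) atTop (𝓝 ((fun p => (G1 p, G2 p)) p)) :=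
    fun p => (lG1 p).prodMk_nhds (lG2 p)
  have rF : ∀ n p, dist (W.Tp n p) ((fun p => (F1 p, F2 p)) p) ≤ 2 * (1 / 2) ^ n :=
    fun n p => exl_dist _ _ _ (exl_rate (fun n y => (W.Tp n y).1) F1 c1 lF1 n p)
      (exl_rate (fun n y => (W.Tp n y).2) F2 c2 lF2 n p)
  have rG : ∀ n p, dist (W.Tm n p) ((fun p => (G1 p, G2 p)) p) ≤ 2 * (1 / 2) ^ n :=
    fun n p => exl_dist _ _ _ (exl_rate (fun n y => (W.Tm n y).1) G1 c3 lG1 n p)
      (exl_rate (fun n y => (W.Tm n y).2) G2 c4 lG2 n p)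
  have ipm : ∀ n p, W.Tp n (W.Tm n p) = p := by
    intro n p
    have h := Phi_inv (W.S n).K (-(1 / ((W.S n).q : ℝ))) 0 p
    rw [neg_neg, neg_zero] at h
    exact h
  have imp : ∀ n p, W.Tm n (W.Tp n p) = p := by
    intro n p
    have h := Phi_inv (W.S n).K (1 / ((W.S n).q : ℝ)) 0 p
    rw [neg_zero] at h
    exact h
  refine ⟨fun p => (F1 p, F2 p), fun p => (G1 p, G2 p), hF, hG, ?_, ?_, ?_, ?_, lF⟩
  · exact exl_inv W.Tp W.Tm _ _ ipm rF lG hF.continuous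
  · exact exl_inv W.Tm W.Tp _ _ imp rG lF hG.continuous
  · exact exl_int W.Tp _ lF (fun n z p => Phi_int _ _ _ z p)
  · exact exl_int W.Tm _ lG (fun n z p => Phi_int _ _ _ z p)

end Pool.Agent.Helper802.OD
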