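import Mathlib
import Pool.Agent.Helper802.OD.Base
import Pool.Agent.Helper802.OD.Easy
import Pool.Agent.Helper802.OD.Anal

set_option autoImplicit false
open MeasureTheory Set Filter Topology
open scoped ContDiff ENNReal

noncomputable section

open Pool.Agent.Helper802.OD

namespace Pool.Agent.Helper802.OD.N_exists_stepTD





-- TARGET

theorem sd5_lift (f : ℝ → ℝ) (hf : Continuous f)
    (hp : ∀ x, ((f (x + 1) : ℝ) : UnitAddCircle) = ((f x : ℝ) : UnitAddCircle)) :
    ∃ g : UnitAddCircle → UnitAddCircle, Continuous g ∧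
      ∀ x : ℝ, g (x : UnitAddCircle) = ((f x : ℝ) : UnitAddCircle) := by
  have hper : Function.Periodic (fun x : ℝ => ((f x : ℝ) : UnitAddCircle)) 1 := hp
  refine ⟨hper.lift, ?_, fun x => hper.lift_coe x⟩
  refine (QuotientAddGroup.isQuotientMap_mk (AddSubgroup.zmultiples (1 : ℝ))).continuous_iff.2 ?_
  have e : (hper.lift : UnitAddCircle → UnitAddCircle) ∘
      (QuotientAddGroup.mk : ℝ → ℝ ⧸ AddSubgroup.zmultiples (1 : ℝ)) =
      fun x : ℝ => ((f x : ℝ) : UnitAddCircle) := by
    funext x
    exact hper.lift_coe x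
  rw [e]
  exact (AddCircle.continuous_mk' (1 : ℝ)).comp hf

theorem sd5_skew (g : UnitAddCircle → UnitAddCircle) (hg : Continuous g) :
    MeasurePreserving (fun p : UnitAddCircle × UnitAddCircle => (p.1, p.2 + g p.1))
      volume volume := by
  rw [Measure.volume_eq_prod]
  refine MeasurePreserving.skew_product (f := id) (g := fun a c => c + g a)
    (MeasurePreserving.id _) ?_ ?_
  · exact (continuous_snd.add (hg.comp continuous_fst)).measurable
  · exact Filter.Eventually.of_forall fun a => (measurePreserving_add_right volume (g a)).map_eq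

theorem sd5_mp (g h : UnitAddCircle → UnitAddCircle) (hg : Continuous g) (hh : Continuous h) :
    MeasurePreserving (fun p : UnitAddCircle × UnitAddCircle =>
      (p.2 + h (p.1 + g p.2), p.1 + g p.2)) volume volume := by
  have hs : MeasurePreserving (Prod.swap : UnitAddCircle × UnitAddCircle → _) volume volume := by
    rw [Measure.volume_eq_prod]
    exact Measure.measurePreserving_swap
  have h1 := hs.comp ((sd5_skew h hh).comp (hs.comp ((sd5_skew g hg).comp hs)))
  exact h1

theorem sd5_s {q c : ℕ} {δ : ℝ} (hq : 0 < q) (hc : 0 < c) (S : SB q c δ) (x : ℝ) :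
    S.s (x + 1) = S.s x + c := by
  have h1 : ∀ k : ℕ, S.s (x + k * (1 / ((c : ℝ) * q))) = S.s x + k * (1 / (q : ℝ)) := by
    intro k
    induction k with
    | zero => simp
    | succ k ih =>
      have e : x + ((k + 1 : ℕ) : ℝ) * (1 / ((c : ℝ) * q)) =
          x + (k : ℝ) * (1 / ((c : ℝ) * q)) + 1 / ((c : ℝ) * q) := by
        push_cast; ring
      rw [e, S.s_step, ih]
      push_cast; ring
  have h2 := h1 (c * q)
  have hq' : (q : ℝ) ≠ 0 := by exact_mod_cast hq.ne'
  have hc' : (c : ℝ) ≠ 0 := by exact_mod_cast hc.ne'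
  have e1 : ((c * q : ℕ) : ℝ) * (1 / ((c : ℝ) * q)) = 1 := by push_cast; field_simp
  have e2 : ((c * q : ℕ) : ℝ) * (1 / (q : ℝ)) = c := by push_cast; field_simp
  rw [e1, e2] at h2
  exact h2

theorem sd5_sz {q c : ℕ} {δ : ℝ} (hq : 0 < q) (hc : 0 < c) (S : SB q c δ) (x : ℝ) (n : ℤ) :
    S.s (x + n) = S.s x + c * n := by
  have hper : Function.Periodic (fun x => S.s x - c * x) 1 := by
    intro y
    show S.s (y + 1) - c * (y + 1) = S.s y - c * y
    rw [sd5_s hq hc S]; ring
  have h1 := hper.int_mul n x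
  simp only [mul_one] at h1
  linarith

theorem sd5_bz {q c : ℕ} {δ : ℝ} (S : SB q c δ) (x : ℝ) (n : ℤ) :
    S.b (x + n) = S.b x := by
  have hper : Function.Periodic S.b 1 := S.b_per
  have h1 := hper.int_mul n x
  rwa [mul_one] at h1

/-- The step map as a torus diffeomorphism. -/
theorem exists_stepTD {q c : ℕ} {δ : ℝ} (hq : 0 < q) (hc : 0 < c) (S : SB q c δ) :
    ∃ E : TD, E.F = S.E ∧ E.G = S.Ei := by
  obtain ⟨β, hβ, hβ'⟩ := sd5_lift S.b S.b_smooth.continuous (fun x => by rw [S.b_per])
  obtain ⟨σ, hσ, hσ'⟩ := sd5_lift S.s S.s_smooth.continuous (fun x => by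
    rw [sd5_s hq hc S, AddCircle.coe_add]
    have h1 : ((c : ℝ) : UnitAddCircle) = 0 := by
      have h2 := AddCircle.coe_period (1 : ℝ)
      have h3 : ((c : ℝ) : UnitAddCircle) = c • (((1 : ℝ)) : UnitAddCircle) := by
        rw [← AddCircle.coe_nsmul, nsmul_eq_mul, mul_one]
      rw [h3, h2, smul_zero]
    rw [h1, add_zero])
  have hbs := S.b_smooth
  have hss := S.s_smooth
  refine ⟨{ F := S.E
            G := S.Ei
            FT := fun p => (p.2 + σ (p.1 + β p.2), p.1 + β p.2)
            GT := fun p => (p.2 + (fun x => -β x) (p.1 + (fun x => -σ x) p.2),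
              p.1 + (fun x => -σ x) p.2)
            hF := ?_
            hG := ?_
            FG := ?_
            GF := ?_
            FTc := ?_
            GTc := ?_
            piF := ?_
            piG := ?_
            int := ?_
            mpF := sd5_mp β σ hβ hσ
            mpG := sd5_mp (fun x => -σ x) (fun x => -β x) hσ.neg hβ.neg }, rfl, rfl⟩
  · unfold SB.E
    have h1 : ContDiff ℝ ∞ (fun p : ℝ × ℝ => p.1 + S.b p.2) :=
      contDiff_fst.add (hbs.comp contDiff_snd)
    exact (contDiff_snd.add (hss.comp h1)).prodMk h1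
  · unfold SB.Ei
    have h1 : ContDiff ℝ ∞ (fun p : ℝ × ℝ => p.1 - S.s p.2) :=
      contDiff_fst.sub (hss.comp contDiff_snd)
    exact (contDiff_snd.sub (hbs.comp h1)).prodMk h1
  · intro p
    simp only [SB.E, SB.Ei]
    refine Prod.ext ?_ ?_
    · simp only
      have e1 : p.2 - S.b (p.1 - S.s p.2) + S.b (p.1 - S.s p.2) = p.2 := by ring
      rw [e1]; ring
    · simp only
      ring
  · intro p
    simp only [SB.E, SB.Ei]
    refine Prod.ext ?_ ?_
    · simp only
      have e1 : p.2 + S.s (p.1 + S.b p.2) - S.s (p.1 + S.b p.2) = p.2 := by ring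
      rw [e1]; ring
    · simp only
      ring
  · have h1 : Continuous (fun p : UnitAddCircle × UnitAddCircle => p.1 + β p.2) :=
      continuous_fst.add (hβ.comp continuous_snd)
    exact (continuous_snd.add (hσ.comp h1)).prodMk h1
  · have h1 : Continuous (fun p : UnitAddCircle × UnitAddCircle => p.1 + (fun x => -σ x) p.2) :=
      continuous_fst.add (hσ.neg.comp continuous_snd)
    exact (continuous_snd.add (hβ.neg.comp h1)).prodMk h1
  · intro p
    simp only [pi2, SB.E]
    rw [hβ', ← AddCircle.coe_add, hσ', ← AddCircle.coe_add]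
  · intro p
    simp only [pi2, SB.Ei]
    rw [hσ', ← sub_eq_add_neg, ← sub_eq_add_neg, ← AddCircle.coe_sub, hβ', ← AddCircle.coe_sub]
  · intro z
    refine ⟨(z.2, z.1 - c * z.2), fun w => ?_⟩
    have e1 : S.b (w.2 + ((z.1 - c * z.2 : ℤ) : ℝ)) = S.b w.2 := sd5_bz S _ _
    have e2 : S.s (w.1 + (z.2 : ℝ) + S.b w.2) = S.s (w.1 + S.b w.2) + c * z.2 := by
      have e3 : w.1 + (z.2 : ℝ) + S.b w.2 = w.1 + S.b w.2 + (z.2 : ℝ) := by ring
      rw [e3, sd5_sz hq hc S]
    simp only [SB.E, zz, Prod.fst_add, Prod.snd_add]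
    rw [e1, e2]
    refine Prod.ext ?_ ?_
    · simp only [Prod.fst_add]
      push_cast
      ring
    · simp only [Prod.snd_add]
      ring

end Pool.Agent.Helper802.OD.N_exists_stepTD
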