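import Mathlib
import Pool.Agent.Helper802.OD.Base
import Pool.Agent.Helper802.OD.Easy
import Pool.Agent.Helper802.OD.Anal
import Pool.Agent.Helper802.ODS.exists_good
import Pool.Agent.Helper802.ODS.exists_SB
import Pool.Agent.Helper802.ODS.exists_stepTD

set_option autoImplicit false
open MeasureTheory Set Filter Topology
open scoped ContDiff ENNReal

noncomputable section

open Pool.Agent.Helper802.OD Pool.Agent.Helper802.OD.N_exists_good Pool.Agent.Helper802.OD.N_exists_SB Pool.Agent.Helper802.OD.N_exists_stepTD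

namespace Pool.Agent.Helper802.OD.N_exists_tower





def cOf (n : ℕ) (S : St) : ℕ := Classical.choose (exists_good S n)

theorem cOf_spec (n : ℕ) (S : St) : Good S (cOf n S) n := Classical.choose_spec (exists_good S n)

theorem cOf_pos (n : ℕ) (S : St) : 0 < cOf n S := by
  have := (cOf_spec n S).two_le
  omega

def BOf (n : ℕ) (S : St) : SB S.q (cOf n S) ((1 / 2) ^ (n + 1)) :=
  (exists_SB S.q (cOf n S) S.hq (cOf_pos n S) ((1 / 2) ^ (n + 1)) (by positivity)
    (pow_lt_one₀ (by norm_num) (by norm_num) (Nat.succ_ne_zero n))).some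

def EOf (n : ℕ) (S : St) : TD := Classical.choose (exists_stepTD S.hq (cOf_pos n S) (BOf n S))

theorem EOf_spec (n : ℕ) (S : St) : (EOf n S).F = (BOf n S).E ∧ (EOf n S).G = (BOf n S).Ei :=
  Classical.choose_spec (exists_stepTD S.hq (cOf_pos n S) (BOf n S))

def nextSt (n : ℕ) (S : St) : St :=
  ⟨cOf n S * S.q, Nat.mul_pos (cOf_pos n S) S.hq, S.K.comp (EOf n S)⟩

def seqSt : ℕ → St
  | 0 => ⟨1, one_pos, TD.one⟩
  | n + 1 => nextSt n (seqSt n)

-- TARGET
theorem exists_tower : Nonempty Tower :=
  ⟨{  S := seqSt,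
      c := fun n => cOf n (seqSt n),
      good := fun n => cOf_spec n (seqSt n),
      B := fun n => BOf n (seqSt n),
      E := fun n => EOf n (seqSt n),
      EF := fun n => (EOf_spec n (seqSt n)).1,
      EG := fun n => (EOf_spec n (seqSt n)).2,
      q_succ := fun _ => rfl,
      K_succ := fun _ => rfl }⟩

end Pool.Agent.Helper802.OD.N_exists_tower
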