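import Mathlib
import Pool.Agent.Helper802.OD.Base
import Pool.Agent.Helper802.OD.Easy
import Pool.Agent.Helper802.OD.Anal

set_option autoImplicit false
open MeasureTheory Set Filter Topology
open scoped ContDiff ENNReal

noncomputable section

open Pool.Agent.Helper802.OD

namespace Pool.Agent.Helper802.OD.N_forward_lemma


-- TARGET
/-- In the good region the step map is (locally) the swap of coordinates. -/
theorem forward_lemma {q c : ℕ} {δ : ℝ} (hq : 0 < q) (hc : 0 < c) (h0 : 0 < δ) (S : SB q c δ)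
    (x y y₀ : ℝ) (hx : Int.fract ((c : ℝ) * q * x) ≤ 1 - δ)
    (hy : Int.fract ((q : ℝ) * y) ≤ 1 - δ) (hy₀ : y₀ ≤ y)
    (hyy : (q : ℝ) * (y - y₀) ≤ Int.fract ((q : ℝ) * y)) :
    S.E (x, y) - S.E ((⌊(c : ℝ) * q * x⌋ : ℝ) / ((c : ℝ) * q), y₀)
      = (y - y₀, x - (⌊(c : ℝ) * q * x⌋ : ℝ) / ((c : ℝ) * q)) := by
  have hqr : (0:ℝ) < (q:ℝ) := by exact_mod_cast hq
  have hcr : (0:ℝ) < (c:ℝ) := by exact_mod_cast hc
  have hcq : (0:ℝ) < (c:ℝ) * q := mul_pos hcr hqr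
  have hfl : ⌊(q:ℝ) * y₀⌋ = ⌊(q:ℝ) * y⌋ := by
    rw [Int.floor_eq_iff]
    constructor
    · have h1 := Int.floor_add_fract ((q:ℝ) * y)
      have h2 : (q:ℝ) * (y - y₀) = (q:ℝ) * y - (q:ℝ) * y₀ := by ring
      linarith
    · have h1 := Int.lt_floor_add_one ((q:ℝ) * y)
      have h2 : (q:ℝ) * y₀ ≤ (q:ℝ) * y := mul_le_mul_of_nonneg_left hy₀ hqr.le
      linarith
  have hfy₀ : Int.fract ((q:ℝ) * y₀) ≤ 1 - δ := by
    have h1 : Int.fract ((q:ℝ) * y₀) = (q:ℝ) * y₀ - ⌊(q:ℝ) * y₀⌋ := rfl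
    have h2 : Int.fract ((q:ℝ) * y) = (q:ℝ) * y - ⌊(q:ℝ) * y⌋ := rfl
    have h3 : (q:ℝ) * y₀ ≤ (q:ℝ) * y := mul_le_mul_of_nonneg_left hy₀ hqr.le
    rw [h1, hfl]
    rw [h2] at hy
    linarith
  obtain ⟨r, hr⟩ : ∃ r : ℤ, r = (-⌊(q : ℝ) * y⌋) % (q : ℤ) := ⟨_, rfl⟩
  have hb : S.b y = (r : ℝ) / ((c : ℝ) * q) := by
    rw [hr]; exact S.b_flat y hy
  have hb₀ : S.b y₀ = (r : ℝ) / ((c : ℝ) * q) := by
    rw [hr, ← hfl]; exact S.b_flat y₀ hfy₀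
  have e1 : (c : ℝ) * q * (x + S.b y) = (c : ℝ) * q * x + (r : ℝ) := by
    rw [hb, mul_add, mul_div_cancel₀ _ hcq.ne']
  have e2 : (c : ℝ) * q * ((⌊(c : ℝ) * q * x⌋ : ℝ) / ((c : ℝ) * q) + S.b y₀)
      = ((⌊(c : ℝ) * q * x⌋ + r : ℤ) : ℝ) := by
    rw [hb₀, mul_add, mul_div_cancel₀ _ hcq.ne', mul_div_cancel₀ _ hcq.ne']
    push_cast; ring
  have hs1 : S.s (x + S.b y) = ((⌊(c : ℝ) * q * x⌋ + r : ℤ) : ℝ) / q := by
    have h1 := S.s_flat (x + S.b y) (by rw [e1, Int.fract_add_intCast]; exact hx)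
    rw [h1, e1, Int.floor_add_intCast]
  have hs2 : S.s ((⌊(c : ℝ) * q * x⌋ : ℝ) / ((c : ℝ) * q) + S.b y₀)
      = ((⌊(c : ℝ) * q * x⌋ + r : ℤ) : ℝ) / q := by
    have h1 := S.s_flat ((⌊(c : ℝ) * q * x⌋ : ℝ) / ((c : ℝ) * q) + S.b y₀) (by
      rw [e2, Int.fract_intCast]
      exact (Int.fract_nonneg _).trans hx)
    rw [h1, e2, Int.floor_intCast]
  unfold SB.E
  apply Prod.ext
  · simp only [Prod.fst_sub]
    rw [hs1, hs2]; ring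
  · simp only [Prod.snd_sub]
    rw [hb, hb₀]; ring

end Pool.Agent.Helper802.OD.N_forward_lemma
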