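import Mathlib
import Pool.Agent.Helper802.OD.Base
import Pool.Agent.Helper802.OD.Easy
import Pool.Agent.Helper802.OD.Anal

set_option autoImplicit false
open MeasureTheory Set Filter Topology
open scoped ContDiff ENNReal

noncomputable section

open Pool.Agent.Helper802.OD

namespace Pool.Agent.Helper802.OD.N_index_lemma


-- TARGET
/-- Index computation for the step map: in the good region, the index `M` of the inverse image is
congruent to `⌊q x⌋` mod `q`, and `M / (c q)` is close to `y`. -/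
theorem index_lemma {q c : ℕ} {δ : ℝ} (hq : 0 < q) (hc : 0 < c) (h0 : 0 < δ) (S : SB q c δ)
    (x y : ℝ) (hy : Int.fract ((c : ℝ) * q * y) ≤ 1 - δ) (hx : Int.fract ((q : ℝ) * x) ≤ 1 - δ) :
    ∃ M : ℤ, ⌊(c : ℝ) * q * (S.Ei (x, y)).1⌋ = M ∧ (q : ℤ) ∣ M - ⌊(q : ℝ) * x⌋ ∧
      0 ≤ y - M / ((c : ℝ) * q) ∧ y - M / ((c : ℝ) * q) < 1 / c := by
  have hq' : (0:ℝ) < q := by exact_mod_cast hq
  have hc' : (0:ℝ) < c := by exact_mod_cast hc
  have hs := S.s_flat y hy
  set n : ℤ := ⌊(c : ℝ) * q * y⌋ with hn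
  set m : ℤ := ⌊(q : ℝ) * x⌋ with hm
  have hqY : (q : ℝ) * (x - S.s y) = q * x - (n : ℤ) := by
    rw [hs]
    field_simp
  have hfr : Int.fract ((q : ℝ) * (x - S.s y)) ≤ 1 - δ := by
    rw [hqY, Int.fract_sub_intCast]
    exact hx
  have hfl : ⌊(q : ℝ) * (x - S.s y)⌋ = m - n := by
    rw [hqY, Int.floor_sub_intCast]
  have hb := S.b_flat (x - S.s y) hfr
  rw [hfl, neg_sub] at hb
  set r : ℤ := (n - m) % (q : ℤ) with hr
  have hr0 : 0 ≤ r := Int.emod_nonneg _ (by exact_mod_cast hq.ne')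
  have hr1 : r < q := Int.emod_lt_of_pos _ (by exact_mod_cast hq)
  have hX : (S.Ei (x, y)).1 = y - (r : ℝ) / ((c : ℝ) * q) := by
    show y - S.b (x - S.s y) = _
    rw [hb]
  have hX' : (c : ℝ) * q * (S.Ei (x, y)).1 = (c : ℝ) * q * y - (r : ℤ) := by
    rw [hX]
    field_simp
  refine ⟨n - r, ?_, ?_, ?_, ?_⟩
  · rw [hX', Int.floor_sub_intCast]
  · have h1 := Int.emod_add_mul_ediv (n - m) (q : ℤ)
    refine ⟨(n - m) / (q : ℤ), ?_⟩
    rw [← hr] at h1
    linarith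
  · have h2 : (n : ℝ) ≤ (c : ℝ) * q * y := Int.floor_le _
    have h3 : (0:ℝ) ≤ r := by exact_mod_cast hr0
    rw [sub_nonneg, div_le_iff₀ (by positivity)]
    push_cast
    linarith
  · have h2 : (c : ℝ) * q * y < n + 1 := Int.lt_floor_add_one _
    have h3 : (r:ℝ) + 1 ≤ q := by exact_mod_cast hr1
    rw [sub_lt_iff_lt_add, ← sub_lt_iff_lt_add']
    have h4 : y - 1 / (c:ℝ) = ((c : ℝ) * q * y - q) / ((c : ℝ) * q) := by
      field_simp
    rw [h4, div_lt_div_iff_of_pos_right (by positivity)]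
    push_cast
    linarith

end Pool.Agent.Helper802.OD.N_index_lemma
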