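import Mathlib
import Pool.Agent.Helper802.OD.Base
import Pool.Agent.Helper802.OD.Easy
import Pool.Agent.Helper802.OD.Anal

set_option autoImplicit false
open MeasureTheory Set Filter Topology
open scoped ContDiff ENNReal

noncomputable section

open Pool.Agent.Helper802.OD

namespace Pool.Agent.Helper802.OD.N_measure_bad




theorem fr_measurable : Measurable fr := by
  have h := (AddCircle.measurableEquivIco (T := (1:ℝ)) 0).measurable
  exact measurable_subtype_coe.comp h

theorem nsmul_mp (q : ℕ) (hq : 0 < q) :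
    MeasurePreserving (fun x : UnitAddCircle => q • x) volume volume := by
  rcases Nat.lt_or_ge 1 q with h | h
  · exact (AddCircle.ergodic_nsmul (T := (1:ℝ)) h).toMeasurePreserving
  · have h1 : q = 1 := le_antisymm h hq
    subst h1
    have h2 : (fun x : UnitAddCircle => 1 • x) = id := by
      funext x
      exact one_nsmul x
    rw [h2]
    exact MeasurePreserving.id (volume : Measure UnitAddCircle)

theorem fr_nsmul (q : ℕ) (x : UnitAddCircle) : fr (q • x) = Int.fract ((q : ℝ) * fr x) := by
  rw [← fr_coe]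
  congr 1
  conv_lhs => rw [← coe_fr x]
  rw [← AddCircle.coe_nsmul, nsmul_eq_mul]

theorem fr_tail (δ : ℝ) (h0 : 0 < δ) (h1 : δ < 1) :
    volume {x : UnitAddCircle | 1 - δ < fr x} ≤ ENNReal.ofReal δ := by
  have hm : MeasurableSet {x : UnitAddCircle | 1 - δ < fr x} :=
    measurableSet_lt measurable_const fr_measurable
  have hmp := UnitAddCircle.measurePreserving_mk 0
  rw [← hmp.measure_preimage hm.nullMeasurableSet]
  have hmm : MeasurableSet ((fun t : ℝ => (t : UnitAddCircle)) ⁻¹' {x : UnitAddCircle | 1 - δ < fr x}) :=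
    hmp.measurable hm
  rw [Measure.restrict_apply hmm]
  have hsub : ((fun t : ℝ => (t : UnitAddCircle)) ⁻¹' {x : UnitAddCircle | 1 - δ < fr x})
      ∩ Ioc 0 (0 + 1) ⊆ Ioc (1 - δ) 1 := by
    rintro t ⟨ht1, ht2⟩
    simp only [mem_preimage, mem_setOf_eq, fr_coe] at ht1
    rw [zero_add] at ht2
    rcases ht2.2.lt_or_eq with h | h
    · rw [Int.fract_eq_self.mpr ⟨ht2.1.le, h⟩] at ht1
      exact ⟨ht1, h.le⟩
    · rw [h, Int.fract_one] at ht1
      linarith
  calc volume _ ≤ volume (Ioc (1 - δ) 1) := measure_mono hsub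
    _ = ENNReal.ofReal δ := by
      rw [Real.volume_Ioc]
      congr 1
      ring

-- TARGET
/-- measure of the bad set of points whose fractional part of `q x` exceeds `1 - δ` -/
theorem measure_bad (q : ℕ) (hq : 0 < q) (δ : ℝ) (h0 : 0 < δ) (h1 : δ < 1) :
    volume {x : UnitAddCircle | 1 - δ < Int.fract ((q : ℝ) * fr x)} ≤ ENNReal.ofReal δ := by
  have hm : MeasurableSet {x : UnitAddCircle | 1 - δ < fr x} :=
    measurableSet_lt measurable_const fr_measurable
  have h2 : {x : UnitAddCircle | 1 - δ < Int.fract ((q : ℝ) * fr x)}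
      = (fun x : UnitAddCircle => q • x) ⁻¹' {x : UnitAddCircle | 1 - δ < fr x} := by
    ext x
    simp only [mem_preimage, mem_setOf_eq, fr_nsmul]
  rw [h2, (nsmul_mp q hq).measure_preimage hm.nullMeasurableSet]
  exact fr_tail δ h0 h1

end Pool.Agent.Helper802.OD.N_measure_bad
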