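import Mathlib
import Pool.Agent.Helper802.OD.Base
import Pool.Agent.Helper802.OD.Easy
import Pool.Agent.Helper802.OD.Anal
import Pool.Agent.Helper802.ODS.index_lemma
import Pool.Agent.Helper802.ODS.measure_bad

set_option autoImplicit false
open MeasureTheory Set Filter Topology
open scoped ContDiff ENNReal

noncomputable section

open Pool.Agent.Helper802.OD Pool.Agent.Helper802.OD.N_index_lemma Pool.Agent.Helper802.OD.N_measure_bad

namespace Pool.Agent.Helper802.OD








-- TARGET
theorem h_consistent_null (f : UnitAddCircle × UnitAddCircle → UnitAddCircle)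
    (hf : MeasurePreserving f volume volume) (A : Set UnitAddCircle) (r : ℝ≥0∞)
    (hA : volume A ≤ r) : volume (f ⁻¹' A) ≤ r := by
  calc volume (f ⁻¹' A) ≤ volume (f ⁻¹' (toMeasurable volume A)) :=
        measure_mono (preimage_mono (subset_toMeasurable _ _))
    _ = volume (toMeasurable volume A) :=
        hf.measure_preimage (measurableSet_toMeasurable _ _).nullMeasurableSet
    _ = volume A := measure_toMeasurable _
    _ ≤ r := hA

theorem Tower.h_consistent (W : Tower) (n : ℕ) :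
    volume {p | ZMod.castHom (W.q_dvd n) (ZMod (W.q n)) (W.h (n + 1) p) ≠ W.h n p}
      ≤ ENNReal.ofReal (2 * (1 / 2) ^ (n + 1)) := by
  have hc : 0 < W.c n := by
    have := (W.good n).two_le
    omega
  have hq : 0 < (W.S n).q := (W.S n).hq
  have h0 : (0:ℝ) < (1 / 2) ^ (n + 1) := by positivity
  have h1 : ((1:ℝ) / 2) ^ (n + 1) < 1 := pow_lt_one₀ (by norm_num) (by norm_num) (by omega)
  set δ : ℝ := (1 / 2) ^ (n + 1) with hδ
  let A1 : Set UnitAddCircle :=
    {x | 1 - δ < Int.fract (((W.c n * (W.S n).q : ℕ) : ℝ) * fr x)}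
  let A2 : Set UnitAddCircle := {x | 1 - δ < Int.fract (((W.S n).q : ℝ) * fr x)}
  have hA1 : volume A1 ≤ ENNReal.ofReal δ :=
    measure_bad (W.c n * (W.S n).q) (Nat.mul_pos hc hq) δ h0 h1
  have hA2 : volume A2 ≤ ENNReal.ofReal δ := measure_bad (W.S n).q hq δ h0 h1
  have hsnd : MeasurePreserving
      (fun p : UnitAddCircle × UnitAddCircle => ((W.S n).K.GT p).2) volume volume := by
    have h2 : MeasurePreserving (Prod.snd : UnitAddCircle × UnitAddCircle → UnitAddCircle)
        volume volume := measurePreserving_snd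
    exact h2.comp (W.S n).K.mpG
  have hfst : MeasurePreserving
      (fun p : UnitAddCircle × UnitAddCircle => ((W.S n).K.GT p).1) volume volume := by
    have h2 : MeasurePreserving (Prod.fst : UnitAddCircle × UnitAddCircle → UnitAddCircle)
        volume volume := measurePreserving_fst
    exact h2.comp (W.S n).K.mpG
  have hsub : {p | ZMod.castHom (W.q_dvd n) (ZMod (W.q n)) (W.h (n + 1) p) ≠ W.h n p} ⊆
      ((fun p : UnitAddCircle × UnitAddCircle => ((W.S n).K.GT p).2) ⁻¹' A1) ∪
      ((fun p : UnitAddCircle × UnitAddCircle => ((W.S n).K.GT p).1) ⁻¹' A2) := by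
    intro p hp
    by_contra hcon
    rw [mem_union, not_or] at hcon
    obtain ⟨hn1, hn2⟩ := hcon
    apply hp
    have hy : ¬ (1 - δ < Int.fract (((W.c n * (W.S n).q : ℕ) : ℝ) * fr ((W.S n).K.GT p).2)) := hn1
    have hx : ¬ (1 - δ < Int.fract (((W.S n).q : ℝ) * fr ((W.S n).K.GT p).1)) := hn2
    set x := fr ((W.S n).K.GT p).1 with hxdef
    set y := fr ((W.S n).K.GT p).2 with hydef
    rw [not_lt] at hx hy
    push_cast at hy
    obtain ⟨M, hM1, hM2, -, -⟩ := index_lemma hq hc h0 (W.B n) x y hy hx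
    have hw : (W.S n).K.GT p = pi2 (x, y) := by
      unfold pi2
      rw [hxdef, hydef, coe_fr, coe_fr]
    have hK : (W.S (n+1)).K.GT p = pi2 ((W.B n).Ei (x, y)) := by
      rw [W.K_succ]
      show (W.E n).GT ((W.S n).K.GT p) = _
      rw [hw, (W.E n).piG, W.EG]
    have e1 : W.h (n + 1) p =
        ((⌊(W.q (n+1) : ℝ) * ((W.B n).Ei (x, y)).1⌋ : ℤ) : ZMod (W.q (n+1))) := by
      unfold Tower.h
      rw [hK]
      show digit (W.q (n+1)) ((((W.B n).Ei (x, y)).1 : ℝ) : UnitAddCircle) = _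
      rw [digit_coe]
    have e2 : W.h n p = ((⌊((W.S n).q : ℝ) * x⌋ : ℤ) : ZMod (W.q n)) := rfl
    have e3 : (W.q (n+1) : ℝ) = (W.c n : ℝ) * (W.S n).q := by
      unfold Tower.q
      rw [W.q_succ]
      push_cast
      rfl
    rw [e1, e2, map_intCast, e3, hM1]
    symm
    rw [ZMod.intCast_eq_intCast_iff_dvd_sub]
    exact hM2
  calc volume {p | ZMod.castHom (W.q_dvd n) (ZMod (W.q n)) (W.h (n + 1) p) ≠ W.h n p}
      ≤ volume (((fun p : UnitAddCircle × UnitAddCircle => ((W.S n).K.GT p).2) ⁻¹' A1) ∪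
      ((fun p : UnitAddCircle × UnitAddCircle => ((W.S n).K.GT p).1) ⁻¹' A2)) := measure_mono hsub
    _ ≤ volume ((fun p : UnitAddCircle × UnitAddCircle => ((W.S n).K.GT p).2) ⁻¹' A1) +
      volume ((fun p : UnitAddCircle × UnitAddCircle => ((W.S n).K.GT p).1) ⁻¹' A2) :=
        measure_union_le _ _
    _ ≤ ENNReal.ofReal δ + ENNReal.ofReal δ :=
        add_le_add (h_consistent_null _ hsnd A1 _ hA1) (h_consistent_null _ hfst A2 _ hA2)
    _ = ENNReal.ofReal (2 * δ) := by
        rw [← ENNReal.ofReal_add h0.le h0.le, two_mul]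

end Pool.Agent.Helper802.OD
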