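import Mathlib
import Pool.Agent.Helper802.OD.Base
import Pool.Agent.Helper802.OD.Easy
import Pool.Agent.Helper802.OD.Anal

set_option autoImplicit false
open MeasureTheory Set Filter Topology
open scoped ContDiff ENNReal

noncomputable section

open Pool.Agent.Helper802.OD

namespace Pool.Agent.Helper802.OD







theorem TD.GT_FT (K : TD) (z : UnitAddCircle × UnitAddCircle) : K.GT (K.FT z) = z := by
  obtain ⟨w, rfl⟩ := pi2_surj z
  rw [K.piF, K.piG, K.GF]

theorem digit_add (q : ℕ) (hq : 0 < q) (t : ℝ) :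
    digit q ((t + 1 / (q : ℝ) : ℝ) : UnitAddCircle) = digit q (t : UnitAddCircle) + 1 := by
  rw [digit_coe, digit_coe]
  have hq' : (q : ℝ) ≠ 0 := by positivity
  have h1 : (q : ℝ) * (t + 1 / (q : ℝ)) = (q : ℝ) * t + 1 := by
    field_simp
  rw [h1, Int.floor_add_one]
  push_cast
  ring

theorem Tower.TT_succ (W : Tower) (n : ℕ) (p : UnitAddCircle × UnitAddCircle) :
    W.TT (n + 1) p = PhiT (W.S n).K (1 / ((W.S n).q : ℝ)) (1 / ((W.c n : ℝ) * (W.S n).q)) p := by
  obtain ⟨w, rfl⟩ := pi2_surj p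
  unfold Tower.TT
  rw [PhiT_pi, PhiT_pi, W.K_succ, W.q_succ]
  rw [← Phi_step (W.B n) (W.S n).K (W.E n) (W.EF n) (W.EG n) w]
  push_cast
  rfl

-- TARGET
theorem Tower.h_equi (W : Tower) (n : ℕ) (p : UnitAddCircle × UnitAddCircle) :
    W.h n (W.TT (n + 1) p) = W.h n p + 1 := by
  rw [W.TT_succ]
  unfold Tower.h PhiT
  rw [TD.GT_FT]
  obtain ⟨v, hv⟩ := pi2_surj ((W.S n).K.GT p)
  rw [← hv, ← pi2_add]
  exact digit_add (W.q n) (W.S n).hq v.1

end Pool.Agent.Helper802.OD
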