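import Mathlib
import Pool.Agent.Helper802.OD.Base
import Pool.Agent.Helper802.OD.Easy
import Pool.Agent.Helper802.OD.Anal

set_option autoImplicit false
open MeasureTheory Set Filter Topology
open scoped ContDiff ENNReal

noncomputable section

open Pool.Agent.Helper802.OD

namespace Pool.Agent.Helper802.OD.N_measurable_of_torus


/-- the covering map of the circle is an open quotient map -/
theorem mot_pi2_quot : IsOpenQuotientMap pi2 := by
  have h : IsOpenQuotientMap (fun x : ℝ => (x : UnitAddCircle)) :=
    QuotientAddGroup.isOpenQuotientMap_mk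
  exact h.prodMap h

theorem mot_pi2_cont : Continuous pi2 := mot_pi2_quot.continuous

-- TARGET
theorem measurable_of_torus (f : (UnitAddCircle × UnitAddCircle) ≃ (UnitAddCircle × UnitAddCircle))
    (F : ℝ × ℝ → ℝ × ℝ) (hF : ContDiff ℝ ∞ F) (h1 : ∀ p, f (pi2 p) = pi2 (F p)) :
    Continuous f := by
  rw [mot_pi2_quot.isQuotientMap.continuous_iff]
  have : (f : (UnitAddCircle × UnitAddCircle) → (UnitAddCircle × UnitAddCircle)) ∘ pi2
      = pi2 ∘ F := by
    ext1 p
    exact h1 p
  rw [this]
  exact mot_pi2_cont.comp hF.continuous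

end Pool.Agent.Helper802.OD.N_measurable_of_torus
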