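import Mathlib
import Pool.Agent.Helper802.OD.Base
import Pool.Agent.Helper802.OD.Easy
import Pool.Agent.Helper802.OD.Anal

set_option autoImplicit false
open MeasureTheory Set Filter Topology
open scoped ContDiff ENNReal

noncomputable section

open Pool.Agent.Helper802.OD

namespace Pool.Agent.Helper802.OD.N_measure_bad_p




-- TARGET
theorem fr_meas : Measurable fr := by
  have h : Measurable (AddCircle.measurableEquivIco (1 : ℝ) 0) :=
    (AddCircle.measurableEquivIco (1 : ℝ) 0).measurable
  exact measurable_subtype_coe.comp h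

theorem fr_nsmul (q : ℕ) (x : UnitAddCircle) : fr (q • x) = Int.fract ((q : ℝ) * fr x) := by
  rw [← fr_coe]
  congr 1
  conv_lhs => rw [← coe_fr x]
  rw [← nsmul_eq_mul]
  rfl

theorem nsmul_mp (q : ℕ) (hq : 0 < q) :
    MeasurePreserving (fun x : UnitAddCircle => q • x) volume volume := by
  rcases Nat.lt_or_ge 1 q with h | h
  · exact (AddCircle.ergodic_nsmul h).toMeasurePreserving
  · have h1 : q = 1 := by omega
    subst h1
    simp only [one_smul]
    exact MeasurePreserving.id _

theorem fr_lt_vol (η : ℝ) : volume {x : UnitAddCircle | fr x < η} ≤ ENNReal.ofReal η := by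
  have hm : MeasurableSet {x : UnitAddCircle | fr x < η} :=
    measurableSet_lt fr_meas measurable_const
  have hp := UnitAddCircle.measurePreserving_mk 0
  rw [← hp.measure_preimage hm.nullMeasurableSet,
    Measure.restrict_apply (hp.measurable hm)]
  calc volume (((↑) : ℝ → UnitAddCircle) ⁻¹' {x : UnitAddCircle | fr x < η} ∩ Ioc 0 (0 + 1))
      ≤ volume (Ico 0 η ∪ {(1 : ℝ)}) := by
        apply measure_mono
        rintro t ⟨ht, ht0, ht1⟩
        have ht' : fr (t : UnitAddCircle) < η := ht
        rw [fr_coe] at ht'
        rw [zero_add] at ht1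
        rcases lt_or_eq_of_le ht1 with h | h
        · left
          rw [Int.fract_eq_self.2 ⟨ht0.le, h⟩] at ht'
          exact ⟨ht0.le, ht'⟩
        · right
          exact h
    _ ≤ volume (Ico 0 η) + volume {(1 : ℝ)} := measure_union_le _ _
    _ = ENNReal.ofReal η := by
        rw [Real.volume_Ico, Real.volume_singleton, add_zero, sub_zero]

/-- measure of the bad set of points whose fractional part of `q x` is less than `η` -/
theorem measure_bad' (q : ℕ) (hq : 0 < q) (η : ℝ) (h0 : 0 ≤ η) :
    volume {x : UnitAddCircle | Int.fract ((q : ℝ) * fr x) < η} ≤ ENNReal.ofReal η := by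
  have h1 : {x : UnitAddCircle | Int.fract ((q : ℝ) * fr x) < η} =
      (fun x : UnitAddCircle => q • x) ⁻¹' {x : UnitAddCircle | fr x < η} := by
    ext x
    show Int.fract ((q : ℝ) * fr x) < η ↔ fr (q • x) < η
    rw [fr_nsmul]
  rw [h1, (nsmul_mp q hq).measure_preimage
    (measurableSet_lt fr_meas measurable_const).nullMeasurableSet]
  exact fr_lt_vol η
end Pool.Agent.Helper802.OD.N_measure_bad_p
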