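import Mathlib
import Pool.Agent.Helper802.OD.Base
import Pool.Agent.Helper802.OD.Easy
import Pool.Agent.Helper802.OD.Anal

set_option autoImplicit false
open MeasureTheory Set Filter Topology
open scoped ContDiff ENNReal

noncomputable section

open Pool.Agent.Helper802.OD

namespace Pool.Agent.Helper802.OD.N_mp_of_limit

-- TARGET
/-- limits of measure preserving maps -/
theorem mp_of_limit {α : Type} [MetricSpace α] [CompactSpace α] [MeasurableSpace α]
    [BorelSpace α] (μ : Measure α) [IsProbabilityMeasure μ] (T : α → α) (Tn : ℕ → α → α)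
    (hTn : ∀ n, MeasurePreserving (Tn n) μ μ) (hTm : Measurable T)
    (hlim : ∀ x, Tendsto (fun n => Tn n x) atTop (𝓝 (T x))) : MeasurePreserving T μ μ := by
  refine ⟨hTm, ?_⟩
  have hfin : IsProbabilityMeasure (μ.map T) := Measure.isProbabilityMeasure_map hTm.aemeasurable
  apply ext_of_forall_integral_eq_of_IsFiniteMeasure
  intro f
  have hf : Continuous f := f.continuous
  rw [integral_map hTm.aemeasurable hf.aestronglyMeasurable]
  have h1 : Tendsto (fun n => ∫ x, f (Tn n x) ∂μ) atTop (𝓝 (∫ x, f (T x) ∂μ)) := by
    apply tendsto_integral_of_dominated_convergence (fun _ => ‖f‖)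
    · intro n
      exact (hf.measurable.comp (hTn n).measurable).aestronglyMeasurable
    · exact integrable_const _
    · intro n
      exact Eventually.of_forall fun x => f.norm_coe_le_norm _
    · exact Eventually.of_forall fun x => (hf.tendsto _).comp (hlim x)
  have h2 : ∀ n, ∫ x, f (Tn n x) ∂μ = ∫ x, f x ∂μ := by
    intro n
    have := integral_map (hTn n).measurable.aemeasurable (μ := μ) (f := f)
      hf.aestronglyMeasurable
    rw [(hTn n).map_eq] at this
    exact this.symm
  rw [funext h2] at h1
  exact tendsto_nhds_unique h1 tendsto_const_nhds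

end Pool.Agent.Helper802.OD.N_mp_of_limit
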