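import Mathlib
import Pool.Agent.Helper802.OD.Base
import Pool.Agent.Helper802.OD.Easy
import Pool.Agent.Helper802.OD.Anal

set_option autoImplicit false
open MeasureTheory Set Filter Topology
open scoped ContDiff ENNReal

noncomputable section

open Pool.Agent.Helper802.OD

namespace Pool.Agent.Helper802.OD.N_odo_unique


theorem zmod_unique (n : ℕ) [NeZero n] (ρ : Measure (ZMod n)) [IsProbabilityMeasure ρ]
    (h : MeasurePreserving (fun x => x + 1) ρ ρ) (a : ZMod n) : ρ {a} = (n : ℝ≥0∞)⁻¹ := by
  have hstep : ∀ b : ZMod n, ρ {b + 1} = ρ {b} := by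
    intro b
    have := h.measure_preimage (measurableSet_singleton (b + 1)).nullMeasurableSet
    rw [← this]
    congr 1
    ext x
    simp
  have hn : ∀ m : ℕ, ρ {(m : ZMod n)} = ρ {0} := by
    intro m
    induction m with
    | zero => simp
    | succ m ih => rw [Nat.cast_succ, hstep, ih]
  have hall : ∀ b : ZMod n, ρ {b} = ρ {0} := by
    intro b
    have := hn b.val
    rwa [ZMod.natCast_zmod_val] at this
  have hsum : ∑ b : ZMod n, ρ {b} = 1 := by
    rw [sum_measure_singleton]
    simp
  simp only [hall] at hsum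
  rw [Finset.sum_const, Finset.card_univ, ZMod.card, nsmul_eq_mul] at hsum
  rw [hall a]
  exact ENNReal.eq_inv_of_mul_eq_one_left (by rw [mul_comm]; exact hsum)

theorem odo_cast (q : ℕ → ℕ) (hq : ∀ k, q k ∣ q (k + 1)) (x : odometer q hq) (k d : ℕ) :
    ∃ hd : q k ∣ q (k + d), ZMod.castHom hd (ZMod (q k)) (x.1 (k + d)) = x.1 k := by
  induction d with
  | zero => exact ⟨dvd_rfl, by simp⟩
  | succ d ih =>
    obtain ⟨hd, h⟩ := ih
    refine ⟨hd.trans (hq (k + d)), ?_⟩
    rw [← h, ← x.2 (k + d)]
    have := ZMod.castHom_comp hd (hq (k + d))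
    exact (RingHom.congr_fun this (x.1 (k + d + 1))).symm

-- TARGET
/-- unique ergodicity of the odometer -/
theorem odo_unique (q : ℕ → ℕ) (hq : ∀ k, q k ∣ q (k + 1)) [∀ k, NeZero (q k)]
    (ν₁ ν₂ : Measure (odometer q hq)) [IsProbabilityMeasure ν₁]
    [IsProbabilityMeasure ν₂] (h₁ : MeasurePreserving (fun x => x + odoOne q hq) ν₁ ν₁)
    (h₂ : MeasurePreserving (fun x => x + odoOne q hq) ν₂ ν₂) : ν₁ = ν₂ := by
  classical
  set C : Set (Set (odometer q hq)) :=
    {s | ∃ (k : ℕ) (A : Set (ZMod (q k))), s = {y | y.1 k ∈ A}} with hC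
  have hgen : (inferInstance : MeasurableSpace (odometer q hq)) =
      MeasurableSpace.generateFrom C := by
    apply le_antisymm
    · change MeasurableSpace.comap _ (⨆ k, MeasurableSpace.comap _ _) ≤ _
      rw [MeasurableSpace.comap_iSup]
      refine iSup_le fun k => ?_
      rw [MeasurableSpace.comap_comp]
      rintro s ⟨A, _, rfl⟩
      exact MeasurableSpace.measurableSet_generateFrom ⟨k, A, rfl⟩
    · refine MeasurableSpace.generateFrom_le ?_
      rintro s ⟨k, A, rfl⟩
      have : Measurable (fun y : odometer q hq => y.1 k) :=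
        (measurable_pi_apply k).comp measurable_subtype_coe
      exact this (MeasurableSet.of_discrete)
  have hpi : IsPiSystem C := by
    have key : ∀ (k d : ℕ) (A : Set (ZMod (q k))) (B : Set (ZMod (q (k + d)))),
        ({y : odometer q hq | y.1 k ∈ A} ∩ {y : odometer q hq | y.1 (k + d) ∈ B}) ∈ C := by
      intro k d A B
      by_cases hd : q k ∣ q (k + d)
      · refine ⟨k + d, (fun b => ZMod.castHom hd (ZMod (q k)) b) ⁻¹' A ∩ B, ?_⟩
        ext y
        obtain ⟨_, h⟩ := odo_cast q hq y k d
        simp only [mem_inter_iff, mem_setOf_eq, mem_preimage]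
        rw [h]
      · exfalso
        obtain ⟨h, _⟩ := odo_cast q hq 0 k d
        exact hd h
    rintro s ⟨k, A, rfl⟩ t ⟨m, B, rfl⟩ _
    rcases le_total k m with h | h
    · obtain ⟨d, rfl⟩ := Nat.exists_eq_add_of_le h
      exact key k d A B
    · obtain ⟨d, rfl⟩ := Nat.exists_eq_add_of_le h
      rw [inter_comm]
      exact key m d B A
  have hpush : ∀ (ν : Measure (odometer q hq)) [IsProbabilityMeasure ν],
      MeasurePreserving (fun x => x + odoOne q hq) ν ν → ∀ (k : ℕ) (a : ZMod (q k)),
      (ν.map (fun y => y.1 k)) {a} = (q k : ℝ≥0∞)⁻¹ := by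
    intro ν _ hν k a
    have hm : Measurable (fun y : odometer q hq => y.1 k) :=
      (measurable_pi_apply k).comp measurable_subtype_coe
    haveI : IsProbabilityMeasure (ν.map (fun y : odometer q hq => y.1 k)) :=
      Measure.isProbabilityMeasure_map hm.aemeasurable
    apply zmod_unique
    refine ⟨measurable_of_countable _, ?_⟩
    rw [Measure.map_map (measurable_of_countable _) hm]
    have : (fun x => x + 1) ∘ (fun y : odometer q hq => y.1 k) =
        (fun y : odometer q hq => y.1 k) ∘ (fun x => x + odoOne q hq) := by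
      ext y; rfl
    rw [this, ← Measure.map_map hm hν.measurable, hν.map_eq]
  refine ext_of_generate_finite C hgen hpi ?_ (by simp)
  rintro s ⟨k, A, rfl⟩
  have hm : Measurable (fun y : odometer q hq => y.1 k) :=
    (measurable_pi_apply k).comp measurable_subtype_coe
  have heq : ν₁.map (fun y : odometer q hq => y.1 k) = ν₂.map (fun y : odometer q hq => y.1 k) := by
    apply Measure.ext_of_singleton
    intro a
    rw [hpush ν₁ h₁, hpush ν₂ h₂]
  have e1 := Measure.map_apply (μ := ν₁) hm (MeasurableSet.of_discrete (s := A))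
  have e2 := Measure.map_apply (μ := ν₂) hm (MeasurableSet.of_discrete (s := A))
  change ν₁ ((fun y : odometer q hq => y.1 k) ⁻¹' A) = ν₂ ((fun y : odometer q hq => y.1 k) ⁻¹' A)
  rw [← e1, ← e2, heq]

end Pool.Agent.Helper802.OD.N_odo_unique
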