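import Mathlib
import Pool.Agent.Helper802.OD.Base
import Pool.Agent.Helper802.OD.Easy
import Pool.Agent.Helper802.OD.Anal
import Pool.Agent.Helper802.ODS.index_lemma
import Pool.Agent.Helper802.ODS.forward_lemma
import Pool.Agent.Helper802.ODS.measure_bad
import Pool.Agent.Helper802.ODS.measure_bad_p

set_option autoImplicit false
open MeasureTheory Set Filter Topology
open scoped ContDiff ENNReal

noncomputable section

open Pool.Agent.Helper802.OD Pool.Agent.Helper802.OD.N_index_lemma Pool.Agent.Helper802.OD.N_forward_lemma Pool.Agent.Helper802.OD.N_measure_bad Pool.Agent.Helper802.OD.N_measure_bad_p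

namespace Pool.Agent.Helper802.OD











theorem rc_circ_int (z : ℤ) : ((z : ℝ) : UnitAddCircle) = 0 := by
  rw [AddCircle.coe_eq_zero_iff]
  exact ⟨z, by simp⟩

theorem rc_dist (a b : ℝ) : dist (a : UnitAddCircle) (b : UnitAddCircle) ≤ |a - b| := by
  rw [dist_eq_norm, ← AddCircle.coe_sub, UnitAddCircle.norm_eq]
  have := round_le (a - b) 0
  simpa using this

theorem rc_FTGT (K : TD) (p : UnitAddCircle × UnitAddCircle) : K.FT (K.GT p) = p := by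
  obtain ⟨a, rfl⟩ := pi2_surj p
  rw [K.piG, K.piF, K.FG]

theorem rc_pull (f : UnitAddCircle × UnitAddCircle → UnitAddCircle × UnitAddCircle)
    (hf : MeasurePreserving f volume volume) (s : Set (UnitAddCircle × UnitAddCircle)) :
    volume (f ⁻¹' s) ≤ volume s := by
  have h := Measure.le_map_apply hf.measurable.aemeasurable (μ := volume) s
  rwa [hf.map_eq] at h

theorem rc_fst (s : Set UnitAddCircle) :
    volume {w : UnitAddCircle × UnitAddCircle | w.1 ∈ s} ≤ volume s := by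
  have hf : MeasurePreserving (Prod.fst : UnitAddCircle × UnitAddCircle → UnitAddCircle)
      (volume : Measure (UnitAddCircle × UnitAddCircle)) volume := by
    rw [Measure.volume_eq_prod]; exact measurePreserving_fst
  have h := Measure.le_map_apply hf.measurable.aemeasurable
    (μ := (volume : Measure (UnitAddCircle × UnitAddCircle))) s
  rwa [hf.map_eq] at h

theorem rc_snd (s : Set UnitAddCircle) :
    volume {w : UnitAddCircle × UnitAddCircle | w.2 ∈ s} ≤ volume s := by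
  have hf : MeasurePreserving (Prod.snd : UnitAddCircle × UnitAddCircle → UnitAddCircle)
      (volume : Measure (UnitAddCircle × UnitAddCircle)) volume := by
    rw [Measure.volume_eq_prod]; exact measurePreserving_snd
  have h := Measure.le_map_apply hf.measurable.aemeasurable
    (μ := (volume : Measure (UnitAddCircle × UnitAddCircle))) s
  rwa [hf.map_eq] at h

/-- the pointwise estimate in the good region -/
theorem rc_good (W : Tower) (n : ℕ) (p : UnitAddCircle × UnitAddCircle) (u v : ℝ)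
    (huv : pi2 (u, v) = (W.S (n + 1)).K.GT p)
    (h1 : Int.fract (((W.c (n + 1) * (W.S (n + 1)).q : ℕ) : ℝ) * v) ≤ 1 - (1 / 2) ^ (n + 1 + 1))
    (h2 : Int.fract (((W.S (n + 1)).q : ℝ) * u) ≤ 1 - (1 / 2) ^ (n + 1))
    (h3 : Int.fract (((W.S n).q : ℝ) * v) ≤ 1 - (1 / 2) ^ (n + 1))
    (h4 : (1 / 2 : ℝ) ^ (n + 1) ≤ Int.fract (((W.S n).q : ℝ) * v)) :
    dist (W.rep (n + 1) (W.h (n + 1 + 1) p)) p ≤ (1 / 2 : ℝ) ^ (n + 1) := by
  obtain ⟨q, hq⟩ : ∃ q, q = (W.S (n + 1)).q := ⟨_, rfl⟩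
  obtain ⟨q', hq'⟩ : ∃ q', q' = (W.S n).q := ⟨_, rfl⟩
  have hqpos : 0 < q := by rw [hq]; exact (W.S (n + 1)).hq
  have hq'pos : 0 < q' := by rw [hq']; exact (W.S n).hq
  have hcpos : 0 < W.c (n + 1) := lt_of_lt_of_le (by norm_num) (W.good (n + 1)).two_le
  have hc'pos : 0 < W.c n := lt_of_lt_of_le (by norm_num) (W.good n).two_le
  have hqq' : q = W.c n * q' := by rw [hq, hq']; exact W.q_succ n
  have hQ : W.q (n + 1 + 1) = W.c (n + 1) * q := by rw [hq]; exact W.q_succ (n + 1)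
  have hqR : (0 : ℝ) < q := by exact_mod_cast hqpos
  have hcR : (0 : ℝ) < W.c (n + 1) := by exact_mod_cast hcpos
  have hq'R : (0 : ℝ) < q' := by exact_mod_cast hq'pos
  have hc'R : (0 : ℝ) < W.c n := by exact_mod_cast hc'pos
  have hqq'R : (q : ℝ) = W.c n * q' := by rw [hqq']; push_cast; ring
  have hQR : (W.q (n + 1 + 1) : ℝ) = W.c (n + 1) * q := by rw [hQ]; push_cast; ring
  have hδ : (1 / 2 : ℝ) ^ (n + 1 + 1) ≤ (1 / 2) ^ (n + 1) :=
    pow_le_pow_of_le_one (by norm_num) (by norm_num) (by omega)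
  -- index lemma
  have hy1 : Int.fract ((W.c (n + 1) : ℝ) * ((W.S (n + 1)).q : ℝ) * v) ≤
      1 - (1 / 2) ^ (n + 1 + 1) := by
    have := h1
    push_cast at this
    exact this
  have hx1 : Int.fract (((W.S (n + 1)).q : ℝ) * u) ≤ 1 - (1 / 2) ^ (n + 1 + 1) := by linarith
  obtain ⟨M, hM, hMd, hM0, hM1⟩ := index_lemma (W.S (n + 1)).hq hcpos (by positivity)
    (W.B (n + 1)) u v hy1 hx1
  replace hM : ⌊(W.c (n + 1) : ℝ) * (q : ℝ) * ((W.B (n + 1)).Ei (u, v)).1⌋ = M := by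
    rw [hq]; exact hM
  rw [← hq] at hMd hM0 hM1
  -- the digit
  have hGT : (W.S (n + 1 + 1)).K.GT p = pi2 ((W.B (n + 1)).Ei (u, v)) := by
    rw [W.K_succ (n + 1)]
    show (W.E (n + 1)).GT ((W.S (n + 1)).K.GT p) = _
    rw [← huv, (W.E (n + 1)).piG, W.EG]
  have hh : W.h (n + 1 + 1) p = ((M : ℤ) : ZMod (W.q (n + 1 + 1))) := by
    unfold Tower.h
    rw [hGT]
    show digit (W.q (n + 1 + 1)) ((((W.B (n + 1)).Ei (u, v)).1 : ℝ) : UnitAddCircle) = _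
    rw [digit_coe, hQR, hM]
  obtain ⟨j, hj⟩ := hMd
  -- the value
  have hval : ((W.h (n + 1 + 1) p).val : ℝ) =
      M - (W.c (n + 1) * q : ℝ) * ((M / (W.q (n + 1 + 1) : ℤ) : ℤ) : ℝ) := by
    rw [hh]
    have h5 : (((((M : ℤ) : ZMod (W.q (n + 1 + 1))).val : ℕ) : ℤ) : ℝ) =
        ((M % (W.q (n + 1 + 1) : ℤ) : ℤ) : ℝ) := by
      rw [ZMod.val_intCast]
    rw [Int.cast_natCast] at h5
    rw [h5, Int.emod_def]
    push_cast
    rw [hQR]
  have hcirc1 : ((((W.h (n + 1 + 1) p).val : ℝ) / (W.q (n + 1) : ℝ) : ℝ) : UnitAddCircle) =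
      (((⌊(q : ℝ) * u⌋ : ℝ) / q : ℝ) : UnitAddCircle) := by
    have e1 : ((W.h (n + 1 + 1) p).val : ℝ) / (W.q (n + 1) : ℝ) = (⌊(q : ℝ) * u⌋ : ℝ) / q +
        ((j - (W.c (n + 1) : ℤ) * (M / (W.q (n + 1 + 1) : ℤ)) : ℤ) : ℝ) := by
      have hMr : (M : ℝ) = ⌊(q : ℝ) * u⌋ + q * j := by
        have : M = ⌊(q : ℝ) * u⌋ + q * j := by linarith
        exact_mod_cast this
      have hqe : (W.q (n + 1) : ℝ) = q := by rw [hq]; rfl
      rw [hval, hqe, hMr]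
      push_cast
      field_simp
      ring
    rw [e1, AddCircle.coe_add, rc_circ_int, add_zero]
  have hcirc2 : ((((W.h (n + 1 + 1) p).val : ℝ) / (W.q (n + 1 + 1) : ℝ) : ℝ) : UnitAddCircle) =
      (((M : ℝ) / (W.c (n + 1) * q) : ℝ) : UnitAddCircle) := by
    have e1 : ((W.h (n + 1 + 1) p).val : ℝ) / (W.q (n + 1 + 1) : ℝ) =
        (M : ℝ) / (W.c (n + 1) * q) + ((-(M / (W.q (n + 1 + 1) : ℤ)) : ℤ) : ℝ) := by
      rw [hval, hQR]
      push_cast
      field_simp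
      ring
    rw [e1, AddCircle.coe_add, rc_circ_int, add_zero]
  obtain ⟨v0, hv0⟩ : ∃ v0 : ℝ, v0 = (M : ℝ) / (W.c (n + 1) * q) := ⟨_, rfl⟩
  obtain ⟨u0, hu0⟩ : ∃ u0 : ℝ, u0 = (⌊(q : ℝ) * u⌋ : ℝ) / q := ⟨_, rfl⟩
  have hrep : W.rep (n + 1) (W.h (n + 1 + 1) p) =
      (W.S n).K.FT (pi2 ((W.B n).E (u0, v0))) := by
    unfold Tower.rep
    have e1 : pi2 (((W.h (n + 1 + 1) p).val : ℝ) / (W.q (n + 1) : ℝ),
        ((W.h (n + 1 + 1) p).val : ℝ) / (W.q (n + 1 + 1) : ℝ)) = pi2 (u0, v0) := by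
      unfold pi2
      rw [hu0, hv0]
      exact Prod.ext hcirc1 hcirc2
    rw [e1, W.K_succ n]
    show (W.S n).K.FT ((W.E n).FT (pi2 (u0, v0))) = _
    rw [(W.E n).piF, W.EF]
  have hp : p = (W.S n).K.FT (pi2 ((W.B n).E (u, v))) := by
    have e1 := rc_FTGT (W.S (n + 1)).K p
    rw [← huv, W.K_succ n] at e1
    have e2 : ((W.S n).K.comp (W.E n)).FT (pi2 (u, v)) =
        (W.S n).K.FT (pi2 ((W.B n).E (u, v))) := by
      show (W.S n).K.FT ((W.E n).FT (pi2 (u, v))) = _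
      rw [(W.E n).piF, W.EF]
    rw [e2] at e1
    exact e1.symm
  -- forward lemma
  have hcq : (q : ℝ) * 2 ^ (n + 1) ≤ W.c (n + 1) := by
    have := (W.good (n + 1)).big
    rw [← hq] at this
    exact this
  have hpow : (1 : ℝ) ≤ 2 ^ (n + 1) := one_le_pow₀ (by norm_num)
  have hvv0 : 0 ≤ v - v0 := by rw [hv0]; exact hM0
  have hvv1 : v - v0 < 1 / W.c (n + 1) := by rw [hv0]; exact hM1
  have hq'q : (q' : ℝ) ≤ q := by
    rw [hqq'R]
    have : (1 : ℝ) ≤ W.c n := by exact_mod_cast hc'pos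
    nlinarith
  have hx2 : Int.fract ((W.c n : ℝ) * ((W.S n).q : ℝ) * u) ≤ 1 - (1 / 2) ^ (n + 1) := by
    rw [← hq', ← hqq'R, hq]; exact h2
  have hyy : ((W.S n).q : ℝ) * (v - v0) ≤ Int.fract (((W.S n).q : ℝ) * v) := by
    refine le_trans ?_ h4
    rw [← hq']
    have e1 : (q' : ℝ) * (v - v0) ≤ q * (1 / W.c (n + 1)) :=
      mul_le_mul hq'q hvv1.le hvv0 hqR.le
    have e2 : (q : ℝ) * (1 / W.c (n + 1)) ≤ (1 / 2) ^ (n + 1) := by
      rw [mul_one_div, div_le_iff₀ hcR, one_div, inv_pow]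
      have h2n : (0 : ℝ) < 2 ^ (n + 1) := by positivity
      calc (q : ℝ) = (2 ^ (n + 1))⁻¹ * (q * 2 ^ (n + 1)) := by field_simp
        _ ≤ (2 ^ (n + 1))⁻¹ * W.c (n + 1) := mul_le_mul_of_nonneg_left hcq (by positivity)
    exact e1.trans e2
  have hfw := forward_lemma (W.S n).hq hc'pos (by positivity) (W.B n) u v v0 hx2 h3
    (by linarith) hyy
  have hue : (⌊(W.c n : ℝ) * ((W.S n).q : ℝ) * u⌋ : ℝ) / ((W.c n : ℝ) * ((W.S n).q : ℝ)) = u0 := by
    rw [← hq', ← hqq'R, hu0]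
  rw [hue] at hfw
  have hfu : 0 ≤ u - u0 ∧ u - u0 ≤ 1 / q := by
    have e1 : u - u0 = Int.fract ((q : ℝ) * u) / q := by
      rw [hu0, Int.fract]
      field_simp
    rw [e1]
    refine ⟨div_nonneg (Int.fract_nonneg _) hqR.le, ?_⟩
    exact div_le_div_of_nonneg_right (Int.fract_lt_one _).le hqR.le
  have hcinv : 1 / (W.c (n + 1) : ℝ) ≤ 1 / q := by
    apply one_div_le_one_div_of_le hqR
    nlinarith
  -- conclusion
  rw [hrep]
  conv_lhs => rw [hp]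
  apply (W.good n).unif
  have hqe2 : 1 / ((W.c n : ℝ) * ((W.S n).q : ℝ)) = 1 / (q : ℝ) := by rw [← hq', ← hqq'R]
  refine le_trans ?_ (le_of_eq hqe2.symm)
  rw [dist_comm]
  have f1 : ((W.B n).E (u, v)).1 - ((W.B n).E (u0, v0)).1 = v - v0 := congrArg Prod.fst hfw
  have f2 : ((W.B n).E (u, v)).2 - ((W.B n).E (u0, v0)).2 = u - u0 := congrArg Prod.snd hfw
  unfold pi2
  rw [Prod.dist_eq]
  apply max_le
  · refine (rc_dist _ _).trans ?_
    rw [f1, abs_of_nonneg hvv0]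
    exact hvv1.le.trans hcinv
  · refine (rc_dist _ _).trans ?_
    rw [f2, abs_of_nonneg hfu.1]
    exact hfu.2

-- TARGET
theorem Tower.rep_close (W : Tower) (n : ℕ) :
    volume {p | (1 / 2 : ℝ) ^ (n + 1) < dist (W.rep (n + 1) (W.h (n + 1 + 1) p)) p}
      ≤ ENNReal.ofReal (10 * (1 / 2) ^ (n + 1)) := by
  have hcpos : 0 < W.c (n + 1) := lt_of_lt_of_le (by norm_num) (W.good (n + 1)).two_le
  have hδ : (1 / 2 : ℝ) ^ (n + 1 + 1) ≤ (1 / 2) ^ (n + 1) :=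
    pow_le_pow_of_le_one (by norm_num) (by norm_num) (by omega)
  have hδ1 : (1 / 2 : ℝ) ^ (n + 1) < 1 := pow_lt_one₀ (by norm_num) (by norm_num) (by omega)
  have hδ2 : (1 / 2 : ℝ) ^ (n + 1 + 1) < 1 := lt_of_le_of_lt hδ hδ1
  have hδ0 : (0 : ℝ) < (1 / 2) ^ (n + 1) := by positivity
  have hδ00 : (0 : ℝ) < (1 / 2) ^ (n + 1 + 1) := by positivity
  set A1 : Set UnitAddCircle := {x | 1 - (1 / 2 : ℝ) ^ (n + 1 + 1) <
    Int.fract (((W.c (n + 1) * (W.S (n + 1)).q : ℕ) : ℝ) * fr x)} with hA1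
  set A2 : Set UnitAddCircle := {x | 1 - (1 / 2 : ℝ) ^ (n + 1) <
    Int.fract (((W.S (n + 1)).q : ℝ) * fr x)} with hA2
  set A3 : Set UnitAddCircle := {x | 1 - (1 / 2 : ℝ) ^ (n + 1) <
    Int.fract (((W.S n).q : ℝ) * fr x)} with hA3
  set A4 : Set UnitAddCircle := {x | Int.fract (((W.S n).q : ℝ) * fr x) <
    (1 / 2 : ℝ) ^ (n + 1)} with hA4
  have m1 : volume A1 ≤ ENNReal.ofReal ((1 / 2) ^ (n + 1 + 1)) :=
    measure_bad _ (Nat.mul_pos hcpos (W.S (n + 1)).hq) _ hδ00 hδ2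
  have m2 : volume A2 ≤ ENNReal.ofReal ((1 / 2) ^ (n + 1)) :=
    measure_bad _ (W.S (n + 1)).hq _ hδ0 hδ1
  have m3 : volume A3 ≤ ENNReal.ofReal ((1 / 2) ^ (n + 1)) :=
    measure_bad _ (W.S n).hq _ hδ0 hδ1
  have m4 : volume A4 ≤ ENNReal.ofReal ((1 / 2) ^ (n + 1)) :=
    measure_bad' _ (W.S n).hq _ hδ0.le
  have hsub : {p | (1 / 2 : ℝ) ^ (n + 1) < dist (W.rep (n + 1) (W.h (n + 1 + 1) p)) p} ⊆
      (W.S (n + 1)).K.GT ⁻¹' ({w | w.2 ∈ A1} ∪ {w | w.1 ∈ A2} ∪ {w | w.2 ∈ A3} ∪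
        {w | w.2 ∈ A4}) := by
    intro p hp
    by_contra hcon
    rw [Set.mem_preimage] at hcon
    simp only [Set.mem_union, not_or] at hcon
    obtain ⟨⟨⟨c1, c2⟩, c3⟩, c4⟩ := hcon
    have g1 : ¬ (1 - (1 / 2 : ℝ) ^ (n + 1 + 1) < Int.fract
      (((W.c (n + 1) * (W.S (n + 1)).q : ℕ) : ℝ) * fr ((W.S (n + 1)).K.GT p).2)) := c1
    have g2 : ¬ (1 - (1 / 2 : ℝ) ^ (n + 1) < Int.fract
      (((W.S (n + 1)).q : ℝ) * fr ((W.S (n + 1)).K.GT p).1)) := c2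
    have g3 : ¬ (1 - (1 / 2 : ℝ) ^ (n + 1) < Int.fract
      (((W.S n).q : ℝ) * fr ((W.S (n + 1)).K.GT p).2)) := c3
    have g4 : ¬ (Int.fract (((W.S n).q : ℝ) * fr ((W.S (n + 1)).K.GT p).2) <
      (1 / 2 : ℝ) ^ (n + 1)) := c4
    have huv : pi2 (fr ((W.S (n + 1)).K.GT p).1, fr ((W.S (n + 1)).K.GT p).2) =
        (W.S (n + 1)).K.GT p := by
      unfold pi2
      exact Prod.ext (coe_fr _) (coe_fr _)
    have := rc_good W n p _ _ huv (not_lt.mp g1) (not_lt.mp g2) (not_lt.mp g3) (not_lt.mp g4)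
    exact absurd hp (not_lt.mpr this)
  have e1 := rc_snd A1
  have e2 := rc_fst A2
  have e3 := rc_snd A3
  have e4 := rc_snd A4
  calc volume {p | (1 / 2 : ℝ) ^ (n + 1) < dist (W.rep (n + 1) (W.h (n + 1 + 1) p)) p}
      ≤ volume ((W.S (n + 1)).K.GT ⁻¹' ({w | w.2 ∈ A1} ∪ {w | w.1 ∈ A2} ∪ {w | w.2 ∈ A3} ∪
        {w | w.2 ∈ A4})) := measure_mono hsub
    _ ≤ volume ({w : UnitAddCircle × UnitAddCircle | w.2 ∈ A1} ∪ {w | w.1 ∈ A2} ∪
        {w | w.2 ∈ A3} ∪ {w | w.2 ∈ A4}) := rc_pull _ (W.S (n + 1)).K.mpG _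
    _ ≤ volume {w : UnitAddCircle × UnitAddCircle | w.2 ∈ A1} +
        volume {w : UnitAddCircle × UnitAddCircle | w.1 ∈ A2} +
        volume {w : UnitAddCircle × UnitAddCircle | w.2 ∈ A3} +
        volume {w : UnitAddCircle × UnitAddCircle | w.2 ∈ A4} := by
      refine (measure_union_le _ _).trans (add_le_add_left ?_ _)
      refine (measure_union_le _ _).trans (add_le_add_left ?_ _)
      exact measure_union_le _ _
    _ ≤ ENNReal.ofReal ((1 / 2) ^ (n + 1 + 1)) + ENNReal.ofReal ((1 / 2) ^ (n + 1)) +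
        ENNReal.ofReal ((1 / 2) ^ (n + 1)) + ENNReal.ofReal ((1 / 2) ^ (n + 1)) :=
      add_le_add (add_le_add (add_le_add (e1.trans m1) (e2.trans m2)) (e3.trans m3)) (e4.trans m4)
    _ ≤ ENNReal.ofReal (10 * (1 / 2) ^ (n + 1)) := by
      rw [← ENNReal.ofReal_add hδ00.le hδ0.le, ← ENNReal.ofReal_add (by positivity) hδ0.le,
        ← ENNReal.ofReal_add (by positivity) hδ0.le]
      apply ENNReal.ofReal_le_ofReal
      linarith

end Pool.Agent.Helper802.OD
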