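import Mathlib
import Pool.Agent.Helper802.OD.Base
import Pool.Agent.Helper802.OD.Easy
import Pool.Agent.Helper802.OD.Anal

set_option autoImplicit false
open MeasureTheory Set Filter Topology
open scoped ContDiff ENNReal

noncomputable section

open Pool.Agent.Helper802.OD

namespace Pool.Agent.Helper802.OD.N_transfer


-- TARGET
theorem smooth_lift_15648 (f : UnitAddCircle × UnitAddCircle → UnitAddCircle × UnitAddCircle)
    (g : (Fin 2 → UnitAddCircle) → (Fin 2 → UnitAddCircle))
    (hg : ∀ x, g x = ![(f (x 0, x 1)).1, (f (x 0, x 1)).2])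
    (F : ℝ × ℝ → ℝ × ℝ) (hF : ContDiff ℝ ∞ F)
    (h1 : ∀ p, f (pi2 p) = pi2 (F p)) : SmoothTorusMap g := by
  refine ⟨fun x => ![(F (x 0, x 1)).1, (F (x 0, x 1)).2], ?_, ?_⟩
  · have hc : ContDiff ℝ ∞ (fun x : Fin 2 → ℝ => F (x 0, x 1)) :=
      hF.comp ((contDiff_apply ℝ ℝ (0 : Fin 2)).prodMk (contDiff_apply ℝ ℝ (1 : Fin 2)))
    rw [contDiff_pi]
    intro i
    fin_cases i
    · exact hc.fst
    · exact hc.snd
  · intro x i
    have e1 : f ((x 0 : UnitAddCircle), (x 1 : UnitAddCircle)) = pi2 (F (x 0, x 1)) :=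
      h1 (x 0, x 1)
    rw [hg]
    simp only [e1]
    fin_cases i
    · rfl
    · rfl

/-- transfer from `𝕋 × 𝕋` to `Fin 2 → 𝕋` -/
theorem transfer (q : ℕ → ℕ) (hq : ∀ k, q k ∣ q (k + 1)) [∀ k, NeZero (q k)]
    (f : (UnitAddCircle × UnitAddCircle) ≃ (UnitAddCircle × UnitAddCircle))
    (F G : ℝ × ℝ → ℝ × ℝ) (hF : ContDiff ℝ ∞ F) (hG : ContDiff ℝ ∞ G)
    (h1 : ∀ p, f (pi2 p) = pi2 (F p)) (h2 : ∀ p, f.symm (pi2 p) = pi2 (G p))
    (hmp : MeasurePreserving f volume volume)
    (hiso : MeasureIso volume f (odoMeasure q hq) (fun x => x + odoOne q hq)) :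
    ∃ g : (Fin 2 → UnitAddCircle) ≃ (Fin 2 → UnitAddCircle),
      SmoothTorusMap g ∧ SmoothTorusMap g.symm ∧ MeasurePreserving g volume volume ∧
      MeasureIso volume g (odoMeasure q hq) (fun x => x + odoOne q hq) := by
  have he : MeasurePreserving (MeasurableEquiv.finTwoArrow (α := UnitAddCircle)) volume volume :=
    volume_preserving_finTwoArrow UnitAddCircle
  have hes : MeasurePreserving (MeasurableEquiv.finTwoArrow (α := UnitAddCircle)).symm
      volume volume := he.symm _
  let g : (Fin 2 → UnitAddCircle) ≃ (Fin 2 → UnitAddCircle) :=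
    ((MeasurableEquiv.finTwoArrow (α := UnitAddCircle)).toEquiv.trans f).trans
      (MeasurableEquiv.finTwoArrow (α := UnitAddCircle)).toEquiv.symm
  refine ⟨g, ?_, ?_, ?_, ?_⟩
  · exact smooth_lift_15648 f g (fun x => rfl) F hF h1
  · exact smooth_lift_15648 f.symm g.symm (fun x => rfl) G hG h2
  · exact (hes.comp hmp).comp he
  · obtain ⟨φ, ψ, hφ, hψ, i1, i2, i3⟩ := hiso
    refine ⟨φ ∘ MeasurableEquiv.finTwoArrow (α := UnitAddCircle),
      (MeasurableEquiv.finTwoArrow (α := UnitAddCircle)).symm ∘ ψ, hφ.comp he, hes.comp hψ,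
      ?_, ?_, ?_⟩
    · have h := he.quasiMeasurePreserving.ae i1
      filter_upwards [h] with x hx
      simp only [Function.comp_apply]
      rw [hx, MeasurableEquiv.symm_apply_apply]
    · filter_upwards [i2] with y hy
      simp only [Function.comp_apply]
      rw [MeasurableEquiv.apply_symm_apply, hy]
    · have h := he.quasiMeasurePreserving.ae i3
      filter_upwards [h] with x hx
      simp only [Function.comp_apply]
      have e1 : (MeasurableEquiv.finTwoArrow (α := UnitAddCircle)) (g x)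
          = f ((MeasurableEquiv.finTwoArrow (α := UnitAddCircle)) x) := rfl
      rw [e1, hx]

end Pool.Agent.Helper802.OD.N_transfer
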