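import Mathlib
import Pool.Agent.Helper802.OD.Base
import Pool.Agent.Helper802.OD.Easy
import Pool.Agent.Helper802.OD.Anal
import Pool.Agent.Helper802.ODS.exists_staircase
import Pool.Agent.Helper802.ODS.exists_SB
import Pool.Agent.Helper802.ODS.index_lemma
import Pool.Agent.Helper802.ODS.forward_lemma
import Pool.Agent.Helper802.ODS.measure_bad
import Pool.Agent.Helper802.ODS.measure_bad_p
import Pool.Agent.Helper802.ODS.exists_stepTD
import Pool.Agent.Helper802.ODS.PhiT_mp
import Pool.Agent.Helper802.ODS.close_aux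
import Pool.Agent.Helper802.ODS.exists_good
import Pool.Agent.Helper802.ODS.exists_coding
import Pool.Agent.Helper802.ODS.odo_unique
import Pool.Agent.Helper802.ODS.tendsto_measure_ne
import Pool.Agent.Helper802.ODS.coding_equivariant
import Pool.Agent.Helper802.ODS.coding_inverse
import Pool.Agent.Helper802.ODS.exists_tower
import Pool.Agent.Helper802.ODS.h_equi
import Pool.Agent.Helper802.ODS.h_consistent
import Pool.Agent.Helper802.ODS.rep_close
import Pool.Agent.Helper802.ODS.exists_limit
import Pool.Agent.Helper802.ODS.exists_torus_map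
import Pool.Agent.Helper802.ODS.mp_of_limit
import Pool.Agent.Helper802.ODS.transfer
import Pool.Agent.Helper802.ODS.measurable_of_torus

set_option autoImplicit false
open MeasureTheory Set Filter Topology
open scoped ContDiff ENNReal

noncomputable section

open Pool.Agent.Helper802.OD Pool.Agent.Helper802.OD.N_exists_staircase Pool.Agent.Helper802.OD.N_exists_SB Pool.Agent.Helper802.OD.N_index_lemma Pool.Agent.Helper802.OD.N_forward_lemma Pool.Agent.Helper802.OD.N_measure_bad Pool.Agent.Helper802.OD.N_measure_bad_p Pool.Agent.Helper802.OD.N_exists_stepTD Pool.Agent.Helper802.OD.N_PhiT_mp Pool.Agent.Helper802.OD.N_close_aux Pool.Agent.Helper802.OD.N_exists_good Pool.Agent.Helper802.OD.N_exists_coding Pool.Agent.Helper802.OD.N_odo_unique Pool.Agent.Helper802.OD.N_tendsto_measure_ne Pool.Agent.Helper802.OD.N_coding_equivariant Pool.Agent.Helper802.OD.N_coding_inverse Pool.Agent.Helper802.OD.N_exists_tower Pool.Agent.Helper802.OD.N_exists_torus_map Pool.Agent.Helper802.OD.N_mp_of_limit Pool.Agent.Helper802.OD.N_transfer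 Pool.Agent.Helper802.OD.N_measurable_of_torus

namespace Pool.Agent.Helper802.OD

/-- Abstract conclusion: isomorphism with the odometer. -/
theorem abstract_iso {α : Type} [MetricSpace α] [CompactSpace α] [Nonempty α] [MeasurableSpace α]
    [BorelSpace α] (μ : Measure α) [IsProbabilityMeasure μ]
    (q : ℕ → ℕ) (hq : ∀ k, q k ∣ q (k + 1)) [∀ k, NeZero (q k)]
    (h : (n : ℕ) → α → ZMod (q n)) (ψ : (n : ℕ) → ZMod (q (n + 1)) → α)
    (hm : ∀ n, Measurable (h n))
    (hs1 : ∑' n, μ {x | ZMod.castHom (hq n) (ZMod (q n)) (h (n + 1) x) ≠ h n x} ≠ ⊤)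
    (hs : ∑' n, μ {x | (1 / 2 : ℝ) ^ n < dist (ψ n (h (n + 1) x)) x} ≠ ⊤)
    (T : α → α) (Tn : ℕ → α → α) (hT : MeasurePreserving T μ μ)
    (hTn : ∀ n, MeasurePreserving (Tn n) μ μ)
    (hlim : ∀ x, Tendsto (fun n => Tn n x) atTop (𝓝 (T x)))
    (heq : ∀ n x, h n (Tn (n + 1) x) = h n x + 1) :
    MeasureIso μ T (odoMeasure q hq) (fun x => x + odoOne q hq) := by
  obtain ⟨Φ, hΦ, hlimΦ⟩ := exists_coding μ q hq h hm hs1
  have hequi := coding_equivariant μ q hq h hm T Tn hT hTn hlim heq Φ hΦ hlimΦ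
  obtain ⟨Ψ, hΨ, hΨΦ⟩ := coding_inverse μ q hq h ψ hm hs Φ hΦ hlimΦ
  have := odoMeasure_prob q hq
  have hprob : IsProbabilityMeasure (μ.map Φ) := Measure.isProbabilityMeasure_map hΦ.aemeasurable
  have hmadd : Measurable (fun x : odometer q hq => x + odoOne q hq) :=
    (continuous_id.add continuous_const).measurable
  have hpush : MeasurePreserving (fun x => x + odoOne q hq) (μ.map Φ) (μ.map Φ) := by
    refine ⟨hmadd, ?_⟩
    rw [Measure.map_map hmadd hΦ]
    have h1 : μ.map ((fun x => x + odoOne q hq) ∘ Φ) = μ.map (Φ ∘ T) :=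
      Measure.map_congr (by filter_upwards [hequi] with x hx; simp [hx])
    rw [h1, ← Measure.map_map hΦ hT.measurable, hT.map_eq]
  have hν : μ.map Φ = odoMeasure q hq := odo_unique q hq _ _ hpush (odoMeasure_inv q hq)
  have hΦmp : MeasurePreserving Φ μ (odoMeasure q hq) := ⟨hΦ, hν⟩
  have hΨmp : MeasurePreserving Ψ (odoMeasure q hq) μ := by
    refine ⟨hΨ, ?_⟩
    rw [← hν, Measure.map_map hΨ hΦ]
    have : μ.map (Ψ ∘ Φ) = μ.map id := Measure.map_congr (by filter_upwards [hΨΦ] with x hx; simp [hx])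
    rw [this, Measure.map_id]
  refine ⟨Φ, Ψ, hΦmp, hΨmp, hΨΦ, ?_, hequi⟩
  rw [← hν]
  have hmeas : MeasurableSet {y : odometer q hq | Φ (Ψ y) = y} := by
    have : {y : odometer q hq | Φ (Ψ y) = y} = ⋂ k, {y : odometer q hq |
        (Φ (Ψ y) : (k : ℕ) → ZMod (q k)) k = (y : (k : ℕ) → ZMod (q k)) k} := by
      ext y
      simp only [mem_ofPred_eq, mem_iInter]
      constructor
      · intro h k; rw [h]
      · intro h; exact Subtype.ext (funext h)
    rw [this]
    refine MeasurableSet.iInter fun k => ?_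
    exact measurableSet_eq_fun ((measurable_pi_apply k).comp (measurable_subtype_coe.comp
      (hΦ.comp hΨ))) ((measurable_pi_apply k).comp measurable_subtype_coe)
  rw [ae_map_iff hΦ.aemeasurable hmeas]
  filter_upwards [hΨΦ] with x hx
  rw [hx]

theorem main : ∃ (q : ℕ → ℕ) (hq : ∀ k, q k ∣ q (k + 1)) (_ : ∀ k, NeZero (q k)),
    Tendsto q atTop atTop ∧ ∃ g : (Fin 2 → UnitAddCircle) ≃ (Fin 2 → UnitAddCircle),
      SmoothTorusMap g ∧ SmoothTorusMap g.symm ∧ MeasurePreserving g volume volume ∧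
      MeasureIso volume g (odoMeasure q hq) (fun x => x + odoOne q hq) := by
  obtain ⟨W⟩ := exists_tower
  obtain ⟨F, G, hF, hG, hFG, hGF, hFz, hGz, hlim⟩ := W.exists_limit
  obtain ⟨f, hf1, hf2⟩ := exists_torus_map F G hFG hGF hFz hGz
  have hfc : Continuous f := measurable_of_torus f F hF hf1
  have hTn : ∀ n, MeasurePreserving (W.TT n) volume volume := fun n => PhiT_mp _ _ _
  have hlimT : ∀ x, Tendsto (fun n => W.TT n x) atTop (𝓝 (f x)) := by
    intro x
    obtain ⟨p, rfl⟩ := pi2_surj x
    rw [hf1]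
    have hpi : Continuous pi2 := by
      unfold pi2
      exact (AddCircle.continuous_mk' 1 |>.comp continuous_fst).prodMk
        (AddCircle.continuous_mk' 1 |>.comp continuous_snd)
    have := (hpi.tendsto (F p)).comp (hlim p)
    refine this.congr fun n => ?_
    exact (PhiT_pi _ _ _ _).symm
  have hmp : MeasurePreserving f volume volume :=
    mp_of_limit volume f W.TT hTn hfc.measurable hlimT
  refine ⟨W.q, W.q_dvd, fun k => inferInstance, W.q_tendsto, ?_⟩
  refine transfer W.q W.q_dvd f F G hF hG hf1 hf2 hmp ?_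
  refine abstract_iso volume W.q W.q_dvd W.h
    (fun n => match n with | 0 => fun _ => 0 | (n + 1) => W.rep (n + 1)) W.h_meas ?_ ?_ f W.TT hmp
    hTn hlimT W.h_equi
  · refine ne_top_of_le_ne_top ?_ (ENNReal.tsum_le_tsum W.h_consistent)
    have : Summable fun n : ℕ => (2 : ℝ) * (1 / 2) ^ (n + 1) := by
      simp only [pow_succ]
      exact (summable_geometric_two.mul_right _).mul_left _
    exact this.tsum_ofReal_ne_top
  · have h1 : ∀ n, volume {x | (1 / 2 : ℝ) ^ n < dist ((fun n => match n with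
        | 0 => fun _ => (0 : UnitAddCircle × UnitAddCircle)
        | (n + 1) => W.rep (n + 1) : (n : ℕ) → ZMod (W.q (n + 1)) → _) n (W.h (n + 1) x)) x}
        ≤ ENNReal.ofReal (10 * (1 / 2) ^ n) := by
      intro n
      cases n with
      | zero =>
        refine le_trans prob_le_one ?_
        simp
      | succ n => exact W.rep_close n
    refine ne_top_of_le_ne_top ?_ (ENNReal.tsum_le_tsum h1)
    have : Summable fun n : ℕ => (10 : ℝ) * (1 / 2) ^ n := summable_geometric_two.mul_left _
    exact this.tsum_ofReal_ne_top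

end Pool.Agent.Helper802.OD
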