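import Mathlib
import Pool.Agent.Helper802.OD.Base
import Pool.Agent.Helper802.OD.Easy
import Pool.Agent.Helper802.OD.Anal

set_option autoImplicit false
open MeasureTheory Set Filter Topology
open scoped ContDiff ENNReal

noncomputable section

open Pool.Agent.Helper802.OD

namespace Pool.Agent.Helper802.OD.N_exists_torus_map





-- TARGET
/-- descend to the torus -/
theorem exists_torus_map (F G : ℝ × ℝ → ℝ × ℝ)
    (FG : ∀ p, F (G p) = p) (GF : ∀ p, G (F p) = p)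
    (hF : ∀ (z : ℤ × ℤ) p, F (p + zz z) = F p + zz z)
    (hG : ∀ (z : ℤ × ℤ) p, G (p + zz z) = G p + zz z) :
    ∃ f : (UnitAddCircle × UnitAddCircle) ≃ (UnitAddCircle × UnitAddCircle),
      (∀ p, f (pi2 p) = pi2 (F p)) ∧ (∀ p, f.symm (pi2 p) = pi2 (G p)) := by
  have hlift : ∀ p p' : ℝ × ℝ, pi2 p = pi2 p' → ∃ z : ℤ × ℤ, p' = p + zz z := by
    intro p p' h
    have h1 : ((p.1 : ℝ) : UnitAddCircle) = (p'.1 : ℝ) := congrArg Prod.fst h
    have h2 : ((p.2 : ℝ) : UnitAddCircle) = (p'.2 : ℝ) := congrArg Prod.snd h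
    have key : ∀ a b : ℝ, ((a : ℝ) : UnitAddCircle) = (b : ℝ) → ∃ n : ℤ, b = a + n := by
      intro a b hab
      have h3 : -a + b ∈ AddSubgroup.zmultiples (1 : ℝ) := QuotientAddGroup.eq.1 hab
      obtain ⟨n, hn⟩ := AddSubgroup.mem_zmultiples_iff.1 h3
      refine ⟨n, ?_⟩
      have : (n : ℝ) = -a + b := by simpa using hn
      linarith
    obtain ⟨n, hn⟩ := key _ _ h1
    obtain ⟨m, hm⟩ := key _ _ h2
    exact ⟨(n, m), Prod.ext hn hm⟩
  have hF' : ∀ p p' : ℝ × ℝ, pi2 p = pi2 p' → pi2 (F p) = pi2 (F p') := by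
    intro p p' h
    obtain ⟨z, rfl⟩ := hlift p p' h
    rw [hF, pi2_add, pi2_zz, add_zero]
  have hG' : ∀ p p' : ℝ × ℝ, pi2 p = pi2 p' → pi2 (G p) = pi2 (G p') := by
    intro p p' h
    obtain ⟨z, rfl⟩ := hlift p p' h
    rw [hG, pi2_add, pi2_zz, add_zero]
  have hs : ∀ x, pi2 (Function.surjInv pi2_surj x) = x := Function.surjInv_eq pi2_surj
  have e1 : ∀ p, pi2 (F (Function.surjInv pi2_surj (pi2 p))) = pi2 (F p) := fun p =>
    hF' _ _ (hs _)
  have e2 : ∀ p, pi2 (G (Function.surjInv pi2_surj (pi2 p))) = pi2 (G p) := fun p =>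
    hG' _ _ (hs _)
  refine ⟨⟨fun x => pi2 (F (Function.surjInv pi2_surj x)),
    fun x => pi2 (G (Function.surjInv pi2_surj x)), ?_, ?_⟩, e1, e2⟩
  · intro x
    show pi2 (G (Function.surjInv pi2_surj (pi2 (F (Function.surjInv pi2_surj x))))) = x
    rw [e2, GF, hs]
  · intro x
    show pi2 (F (Function.surjInv pi2_surj (pi2 (G (Function.surjInv pi2_surj x))))) = x
    rw [e1, FG, hs]


end Pool.Agent.Helper802.OD.N_exists_torus_map
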